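import Pool.Agent.MP_a9d3bd_ag.GBas

open Function TensorProduct Matrix

namespace Pool.Agent.MP_a9d3bd_ag

theorem Idem_rank_eq {Ω : Type} [Field Ω] {a b r m : ℕ}
    (h : (Polynomial.X : Polynomial Ω) ^ a * (Polynomial.X - 1) ^ r =
      Polynomial.X ^ b * (Polynomial.X - 1) ^ m) : r = m := by
  have key : ∀ a r : ℕ, Polynomial.rootMultiplicity (1 : Ω)
      ((Polynomial.X : Polynomial Ω) ^ a * (Polynomial.X - 1) ^ r) = r := by
    intro a r
    have h1 : ((Polynomial.X : Polynomial Ω) - 1) = Polynomial.X - Polynomial.C 1 := by simp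
    rw [h1, Polynomial.rootMultiplicity_mul (mul_ne_zero (pow_ne_zero _ Polynomial.X_ne_zero)
      (pow_ne_zero _ (Polynomial.X_sub_C_ne_zero 1))), Polynomial.rootMultiplicity_X_sub_C_pow,
      Polynomial.rootMultiplicity_eq_zero (by simp), zero_add]
  rw [← key a r, h, key]

theorem Idem_alt {Ω σ : Type} [CommRing Ω] [Fintype σ] (S : Matrix σ σ Ω) (h1 : ∀ a, S a a = 0)
    (h2 : ∀ a b, S a b + S b a = 0) (v : σ → Ω) : v ⬝ᵥ S *ᵥ v = 0 := by
  simp only [dotProduct, mulVec, Finset.mul_sum]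
  rw [← Finset.sum_product']
  refine Finset.sum_involution (fun x _ => x.swap) (fun x _ => ?_) (fun x _ hx he => hx ?_)
    (fun x _ => by simp) fun x _ => rfl
  · simp only [Prod.fst_swap, Prod.snd_swap]
    linear_combination v x.1 * v x.2 * h2 x.1 x.2
  · have : x.2 = x.1 := congrArg Prod.fst he
    rw [this, h1]
    ring

theorem Idem_conj {Ω σ : Type} [CommRing Ω] [Fintype σ] (N e : Matrix σ σ Ω) (v w : σ → Ω) :
    v ⬝ᵥ (eᵀ * N * e) *ᵥ w = (e *ᵥ v) ⬝ᵥ N *ᵥ (e *ᵥ w) := by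
  rw [← mulVec_mulVec, ← mulVec_mulVec, dotProduct_mulVec, vecMul_transpose]

theorem Idem_entry {Ω σ : Type} [CommRing Ω] [Fintype σ] [DecidableEq σ] (N e : Matrix σ σ Ω)
    (a b : σ) : (eᵀ * N * e) a b =
      (e *ᵥ Pi.single a 1) ⬝ᵥ N *ᵥ (e *ᵥ Pi.single b 1) := by
  rw [← Idem_conj]
  simp

theorem Idem_line {Ω σ : Type} [Field Ω] [Fintype σ] [DecidableEq σ] (P : Matrix σ σ Ω)
    (h : ∀ a b c d, P a c * P b d - P a d * P b c = 0) :
    ∃ u₀, ∀ u, ∃ t : Ω, P *ᵥ u = t • P *ᵥ u₀ := by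
  by_cases hP : P = 0
  · exact ⟨0, fun u => ⟨0, by simp [hP]⟩⟩
  obtain ⟨a₀, c₀, h0⟩ : ∃ a c, P a c ≠ 0 := by
    by_contra hc
    push Not at hc
    exact hP (Matrix.ext hc)
  refine ⟨Pi.single c₀ 1, fun u => ⟨(P *ᵥ u) a₀ / P a₀ c₀, funext fun a => ?_⟩⟩
  have h1 : (P *ᵥ Pi.single c₀ 1) a = P a c₀ := by simp
  rw [Pi.smul_apply, h1, smul_eq_mul, div_mul_eq_mul_div, eq_div_iff h0]
  simp only [mulVec, dotProduct, Finset.sum_mul]
  refine Finset.sum_congr rfl fun c _ => ?_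
  linear_combination u c * h a a₀ c c₀

theorem Idem_all {R σ : Type} [CommRing R] [Fintype σ] [DecidableEq σ] (q m : ℕ)
    (N e : Matrix σ σ R) : (∀ p ∈ eqs q m N e, p = 0) ↔ e * e = e ∧
      e.charpoly = Polynomial.X ^ (Fintype.card σ - m) * (Polynomial.X - 1) ^ m ∧
      (∀ a, (eᵀ * N * e) a a = 0) ∧ (∀ a b, (eᵀ * N * e) a b + (eᵀ * N * e) b a = 0) ∧
      ∀ a b c d, ((1 - e) * e.map (· ^ q)) a c * ((1 - e) * e.map (· ^ q)) b d -
        ((1 - e) * e.map (· ^ q)) a d * ((1 - e) * e.map (· ^ q)) b c = 0 := by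
  constructor
  · intro h
    refine ⟨?_, ?_, fun a => ?_, fun a b => ?_, fun a b c d => ?_⟩
    · rw [← sub_eq_zero]
      ext a b
      exact h _ (Or.inl (Or.inl (Or.inl (Or.inl ⟨a, b, rfl⟩))))
    · rw [← sub_eq_zero]
      ext i
      exact h _ (Or.inl (Or.inl (Or.inl (Or.inr ⟨i, rfl⟩))))
    · exact h _ (Or.inl (Or.inl (Or.inr ⟨a, rfl⟩)))
    · exact h _ (Or.inl (Or.inr ⟨a, b, rfl⟩))
    · exact h _ (Or.inr ⟨a, b, c, d, rfl⟩)
  · rintro ⟨h1, h2, h3, h4, h5⟩ p ((((⟨a, b, rfl⟩ | ⟨i, rfl⟩) | ⟨a, rfl⟩) | ⟨a, b, rfl⟩) |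
      ⟨a, b, c, d, rfl⟩)
    · rw [h1, sub_self, Matrix.zero_apply]
    · rw [h2, sub_self, Polynomial.coeff_zero]
    · exact h3 a
    · exact h4 a b
    · exact h5 a b c d

theorem idem_charpoly {Ω σ : Type} [Field Ω] [Fintype σ] [DecidableEq σ] {e : Matrix σ σ Ω}
    (he : e * e = e) : e.charpoly =
      Polynomial.X ^ (Fintype.card σ - e.rank) * (Polynomial.X - 1) ^ e.rank := by
  have h1 : IsIdempotentElem e.mulVecLin := by
    rw [IsIdempotentElem, Module.End.mul_eq_comp, ← Matrix.mulVecLin_mul, he]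
  have h2 := (LinearMap.IsIdempotentElem.isProj_range _ h1).eq_conj_prodMap
  have h3 := LinearMap.finrank_range_add_finrank_ker e.mulVecLin
  rw [Module.finrank_fintype_fun_eq_card] at h3
  rw [← Matrix.charpoly_mulVecLin]
  conv_lhs => rw [h2]
  rw [LinearEquiv.charpoly_conj, LinearMap.charpoly_prodMap, LinearMap.charpoly_zero,
    ← Module.End.one_eq_id, LinearMap.charpoly_one, mul_comm, Matrix.rank, ← h3,
    Nat.add_sub_cancel_left]

theorem eqs_map {R R' σ : Type} [CommRing R] [CommRing R'] [Fintype σ] [DecidableEq σ]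
    (f : R →+* R') (q m : ℕ) (N e : Matrix σ σ R) :
    f '' eqs q m N e = eqs q m (N.map f) (e.map f) := by
  have h1 : ∀ a b, f ((e * e - e) a b) = (e.map f * e.map f - e.map f) a b := by
    intro a b
    rw [← Matrix.map_mul, Matrix.sub_apply, Matrix.sub_apply, map_sub]
    rfl
  have h2 : ∀ i, f ((e.charpoly -
      Polynomial.X ^ (Fintype.card σ - m) * (Polynomial.X - 1) ^ m).coeff i) =
      ((e.map f).charpoly -
        Polynomial.X ^ (Fintype.card σ - m) * (Polynomial.X - 1) ^ m).coeff i := by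
    intro i
    rw [← Polynomial.coeff_map, Matrix.charpoly_map]
    simp
  have h3 : ∀ a b, f ((eᵀ * N * e) a b) = ((e.map f)ᵀ * N.map f * e.map f) a b := by
    intro a b
    rw [← Matrix.transpose_map, ← Matrix.map_mul, ← Matrix.map_mul]
    rfl
  have h4 : ∀ a b, f (((1 - e) * e.map (· ^ q)) a b) =
      ((1 - e.map f) * (e.map f).map (· ^ q)) a b := by
    intro a b
    have h5 : (1 - e).map f = 1 - e.map f := by
      rw [Matrix.map_sub _ (map_sub f), Matrix.map_one _ (map_zero f) (map_one f)]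
    have h6 : (e.map (· ^ q)).map f = (e.map f).map (· ^ q) := by
      ext a b
      simp
    rw [← h5, ← h6, ← Matrix.map_mul]
    rfl
  ext p
  constructor
  · rintro ⟨p, ((((⟨a, b, rfl⟩ | ⟨i, rfl⟩) | ⟨a, rfl⟩) | ⟨a, b, rfl⟩) | ⟨a, b, c, d, rfl⟩), rfl⟩
    · exact Or.inl (Or.inl (Or.inl (Or.inl ⟨a, b, h1 a b⟩)))
    · exact Or.inl (Or.inl (Or.inl (Or.inr ⟨i, h2 i⟩)))
    · exact Or.inl (Or.inl (Or.inr ⟨a, h3 a a⟩))
    · exact Or.inl (Or.inr ⟨a, b, by rw [map_add, h3, h3]⟩)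
    · exact Or.inr ⟨a, b, c, d, by rw [map_sub, map_mul, map_mul, h4, h4, h4, h4]⟩
  · rintro ((((⟨a, b, rfl⟩ | ⟨i, rfl⟩) | ⟨a, rfl⟩) | ⟨a, b, rfl⟩) | ⟨a, b, c, d, rfl⟩)
    · exact ⟨_, Or.inl (Or.inl (Or.inl (Or.inl ⟨a, b, rfl⟩))), h1 a b⟩
    · exact ⟨_, Or.inl (Or.inl (Or.inl (Or.inr ⟨i, rfl⟩))), h2 i⟩
    · exact ⟨_, Or.inl (Or.inl (Or.inr ⟨a, rfl⟩)), h3 a a⟩
    · exact ⟨_, Or.inl (Or.inr ⟨a, b, rfl⟩), by rw [map_add, h3, h3]⟩
    · exact ⟨_, Or.inr ⟨a, b, c, d, rfl⟩, by rw [map_sub, map_mul, map_mul, h4, h4, h4, h4]⟩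

variable (k : Type) {F σ : Type} [Field k] [Field F] [Algebra F k] [Fintype F] [Fintype σ]
  [DecidableEq σ]

theorem cut_jpt (M : Matrix σ σ F) (m : ℕ) : Cut (JPt k M m) (eqs (Fintype.card F) m
    (M.map fun c => MvPolynomial.C (algebraMap F k c))
    (Matrix.of fun a b => MvPolynomial.X (a, b))) := by
  intro Ω _ _ x
  have h := eqs_map (MvPolynomial.aeval x : MvPolynomial (σ × σ) k →ₐ[k] Ω).toRingHom
    (Fintype.card F) m (M.map fun c => MvPolynomial.C (algebraMap F k c))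
    (Matrix.of fun a b => MvPolynomial.X (a, b))
  have h1 : (M.map fun c => (MvPolynomial.C (algebraMap F k c) : MvPolynomial (σ × σ) k)).map
      (MvPolynomial.aeval x : MvPolynomial (σ × σ) k →ₐ[k] Ω).toRingHom = rm k Ω M := by
    ext a b
    simp [rm, cF]
  have h2 : (Matrix.of fun a b => (MvPolynomial.X (a, b) : MvPolynomial (σ × σ) k)).map
      (MvPolynomial.aeval x : MvPolynomial (σ × σ) k →ₐ[k] Ω).toRingHom = mat x := by
    ext a b
    simp [mat]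
  rw [h1, h2] at h
  unfold JPt
  rw [← h, Set.forall_mem_image]
  rfl

/-- the geometric meaning of the equations -/
theorem jpt_iff (M : Matrix σ σ F) (m : ℕ) {Ω : Type} [Field Ω] [Algebra k Ω] (x : σ × σ → Ω) :
    JPt k M m Ω x ↔ mat x * mat x = mat x ∧ (mat x).rank = m ∧
      (∀ v, mat x *ᵥ v = v → Qf k M v = 0) ∧
      ∃ w, ∀ v, mat x *ᵥ v = v → ∃ t : Ω, mat x *ᵥ (fr F 1 v - t • w) = fr F 1 v - t • w := by
  unfold JPt
  rw [Idem_all]
  generalize mat x = e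
  obtain ⟨φ, hφ⟩ := exists_frob k F Ω 1
  have hfr : ∀ v : σ → Ω, fr F 1 (e *ᵥ v) = e.map (· ^ Fintype.card F) *ᵥ fr F 1 v := by
    intro v
    funext a
    simp only [fr, mulVec, dotProduct, Matrix.map_apply]
    rw [← hφ, map_sum]
    refine Finset.sum_congr rfl fun c _ => ?_
    rw [map_mul, hφ, hφ, pow_one]
  refine and_congr_right fun he => ?_
  have hcol : ∀ a, e *ᵥ (e *ᵥ Pi.single a 1) = e *ᵥ Pi.single a 1 := by
    intro a
    rw [mulVec_mulVec, he]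
  constructor
  · rintro ⟨h2, h3, h4, h5⟩
    refine ⟨?_, fun v hv => ?_, ?_⟩
    · rw [idem_charpoly he] at h2
      exact Idem_rank_eq h2
    · have := Idem_alt _ h3 h4 v
      rwa [Idem_conj, hv] at this
    · obtain ⟨u₀, hu⟩ := Idem_line _ h5
      refine ⟨((1 - e) * e.map (· ^ Fintype.card F)) *ᵥ u₀, fun v hv => ?_⟩
      obtain ⟨t, ht⟩ := hu (fr F 1 v)
      refine ⟨t, ?_⟩
      rw [← ht, ← mulVec_mulVec, ← hfr, hv, sub_mulVec, one_mulVec, sub_sub_cancel,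
        mulVec_mulVec, he]
  · rintro ⟨h2, h3, w, h5⟩
    have h6 : ∀ a, (eᵀ * rm k Ω M * e) a a = 0 := by
      intro a
      rw [Idem_entry]
      exact h3 _ (hcol a)
    refine ⟨by rw [← h2]; exact idem_charpoly he, h6, fun a b => ?_, ?_⟩
    · have h7 := h3 (e *ᵥ Pi.single a 1 + e *ᵥ Pi.single b 1) (by rw [mulVec_add, hcol, hcol])
      rw [Qf_add, h3 _ (hcol a), h3 _ (hcol b), zero_add, zero_add] at h7
      rw [Idem_entry, Idem_entry]
      exact h7
    · have h7 : ∀ c, ∃ t : Ω, ∀ a, ((1 - e) * e.map (· ^ Fintype.card F)) a c =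
          t * ((1 - e) *ᵥ w) a := by
        intro c
        obtain ⟨t, ht⟩ := h5 _ (hcol c)
        refine ⟨t, fun a => ?_⟩
        have h8 : (1 - e) *ᵥ fr F 1 (e *ᵥ Pi.single c 1) = t • (1 - e) *ᵥ w := by
          rw [← mulVec_smul, ← sub_eq_zero, ← mulVec_sub, sub_mulVec, one_mulVec, ht, sub_self]
        have h9 : fr F 1 (e *ᵥ Pi.single c 1) =
            e.map (· ^ Fintype.card F) *ᵥ Pi.single c 1 := by
          funext b
          simp [fr]
        have h10 := congrFun h8 a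
        rw [h9, mulVec_mulVec] at h10
        simpa using h10
      choose t ht using h7
      intro a b c d
      rw [ht, ht, ht, ht]
      ring

end Pool.Agent.MP_a9d3bd_ag
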