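import Pool.Agent.MP_a9d3bd_ag.StrX
import Pool.Agent.MP_a9d3bd_ag.Frob

open Function TensorProduct Matrix

namespace Pool.Agent.MP_a9d3bd_ag

theorem StrLift_moore (F : Type) [Fintype F] {b : ℕ} {R : Type} [CommRing R] (z v : Fin b → R) :
    moore F z *ᵥ v = ∑ i, v i • fr F i.val z := by
  funext s
  simp only [moore, Matrix.mulVec, dotProduct, Matrix.of_apply, Finset.sum_apply, Pi.smul_apply,
    smul_eq_mul]
  exact Finset.sum_congr rfl fun i _ => mul_comm _ _

theorem StrLift_mem (F : Type) [Fintype F] {b r : ℕ} (hr : r ≤ b) {Ω : Type} [Field Ω]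
    {z : Fin b → Ω} (hd : (moore F z).det ≠ 0) (v : Fin b → Ω) :
    moore F z *ᵥ v ∈ Submodule.span Ω (Set.range fun i : Fin r => fr F i.val z) ↔
      ∀ i : Fin b, ¬ i.val < r → v i = 0 := by
  constructor
  · intro h
    obtain ⟨u, hu⟩ := (Submodule.mem_span_range_iff_exists_fun Ω).1 h
    have h1 : moore F z *ᵥ (fun i : Fin b => if hi : i.val < r then u ⟨i.val, hi⟩ else 0) =
        moore F z *ᵥ v := by
      rw [← hu, StrLift_moore]
      obtain ⟨d, rfl⟩ := Nat.exists_eq_add_of_le hr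
      rw [Fin.sum_univ_add]
      simp
    have h2 : Injective (moore F z).mulVec :=
      Matrix.mulVec_injective_iff_isUnit.2
        ((Matrix.isUnit_iff_isUnit_det _).2 (isUnit_iff_ne_zero.2 hd))
    intro i hi
    rw [← h2 h1]
    exact dif_neg hi
  · intro h
    rw [StrLift_moore]
    refine Submodule.sum_mem _ fun i _ => ?_
    by_cases hi : i.val < r
    · exact Submodule.smul_mem _ _ (Submodule.subset_span ⟨⟨i.val, hi⟩, rfl⟩)
    · rw [h i hi, zero_smul]
      exact Submodule.zero_mem _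

theorem StrLift_vec (k : Type) {F : Type} [Field k] [Field F] [Algebra F k] [Fintype F] {b r : ℕ}
    (hp : b ≠ 0 → 1 ≤ r ∧ r < b) (hz : b = 0 → r = 0) {Ω : Type} [Field Ω] [IsAlgClosed Ω]
    [Algebra k Ω] (W : Submodule Ω (Fin b → Ω)) (hr : Module.finrank Ω W = r)
    (hl : ∃ w, ∀ z ∈ W, ∃ t : Ω, fr F 1 z - t • w ∈ W)
    (h1 : ∀ u : Fin b → F, rv k Ω u ∈ W → u = 0)
    (h2 : ∀ l : Fin b → F, (∀ z ∈ W, rv k Ω l ⬝ᵥ z = 0) → l = 0) :
    ∃ z : Fin b → Ω, (∀ s : Fin b, s.val = 0 → z s = 1) ∧ (moore F z).det ≠ 0 ∧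
      (∀ i < r, fr F i z ∈ W) ∧
      ∀ v, moore F z *ᵥ v ∈ W ↔ ∀ i : Fin b, ¬ i.val < r → v i = 0 := by
  by_cases hb : b = 0
  · obtain rfl := hz hb
    subst hb
    refine ⟨0, fun s => s.elim0, by simp, fun i hi => absurd hi (Nat.not_lt_zero _), fun v => ?_⟩
    refine ⟨fun _ i => i.elim0, fun _ => ?_⟩
    rw [Subsingleton.elim (moore F 0 *ᵥ v) 0]
    exact W.zero_mem
  · obtain ⟨hr1, hrb⟩ := hp hb
    obtain ⟨r, rfl⟩ : ∃ r', r = r' + 1 := ⟨r - 1, by omega⟩
    obtain ⟨x, hx0, hx⟩ := exists_chain k r W hr h1 hl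
    have hb' : 0 < b := Nat.pos_of_ne_zero hb
    obtain ⟨-, hg, -⟩ := gen_of_chain k W h1 h2 hx0 (by rw [hr]; exact hx)
    have h0 : x ⟨0, hb'⟩ ≠ 0 := by
      intro h0
      have := hg (Pi.single ⟨0, hb'⟩ 1) (by
        rw [dotProduct, Finset.sum_eq_single ⟨0, hb'⟩]
        · rw [h0, mul_zero]
        · intro s _ hs
          simp [rv, Pi.single_eq_of_ne hs]
        · simp)
      have h3 := congrFun this ⟨0, hb'⟩
      simp at h3
    have hc : ∀ i < r + 1, fr F i ((x ⟨0, hb'⟩)⁻¹ • x) ∈ W := fun i hi => by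
      rw [fr_smul]
      exact W.smul_mem _ (hx i hi)
    obtain ⟨hs, -, hd⟩ := gen_of_chain k W h1 h2 (smul_ne_zero (inv_ne_zero h0) hx0)
      (by rw [hr]; exact hc)
    refine ⟨(x ⟨0, hb'⟩)⁻¹ • x, fun s hs => ?_, hd, hc, fun v => ?_⟩
    · obtain rfl : s = ⟨0, hb'⟩ := Fin.ext hs
      rw [Pi.smul_apply, smul_eq_mul, inv_mul_cancel₀ h0]
    · rw [← StrLift_mem F hrb.le hd v, ← hr, ← hs]

theorem str_lift (k : Type) {F : Type} [Field k] [Field F] [Algebra F k] [Fintype F] {a b c : ℕ}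
    {M : Matrix (Ix a b c) (Ix a b c) F} {m r : ℕ} (h : StrHyp M m r) {Ω : Type} [Field Ω]
    [IsAlgClosed Ω] [Algebra k Ω] {x : Ix a b c × Ix a b c → Ω}
    (hx : CS k M m (UA F a b c) (UB F a b c) Ω x) (hg : Gen k (UA F a b c) (UB F a b c) Ω x) :
    ∃ y, PS k M r Ω y ∧ Par k F a b c r Ω y = x := by
  obtain ⟨W, hW⟩ := exists_wok k hx hg
  have hr : Module.finrank Ω W = r := by
    have h1 := hW.rank
    have h2 := h.sum
    omega
  obtain ⟨z, hz0, hd, hc, hm⟩ := StrLift_vec k h.pos h.zero W hr hW.line hW.norat hW.nohyp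
  obtain ⟨he, -, hQ, -⟩ := (jpt_iff k M m x).1 hx.1
  have hQW : ∀ w ∈ W, Qf k (mid M) w = 0 := fun w hw => by
    rw [← Qf_emb]
    exact hQ _ ((hW.fix _).2 ⟨fun _ => rfl, hw⟩)
  set P : Matrix (Ix a b c) (Ix a b c) Ω := blk a c (moore F z) with hP
  set P' : Matrix (Ix a b c) (Ix a b c) Ω :=
    blk a c ((moore F z).det⁻¹ • (moore F z).adjugate) with hP'
  have h1 : P * P' = 1 := by
    rw [hP, hP', blk_mul, Matrix.mul_smul, Matrix.mul_adjugate, smul_smul, inv_mul_cancel₀ hd,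
      one_smul, blk_one]
  have h2 : P' * P = 1 := by
    rw [hP, hP', blk_mul, Matrix.smul_mul, Matrix.adjugate_mul, smul_smul, inv_mul_cancel₀ hd,
      one_smul, blk_one]
  have hN : P' * mat x * P * (P' * mat x * P) = P' * mat x * P := by
    calc P' * mat x * P * (P' * mat x * P) = P' * (mat x * (P * P') * mat x) * P := by
          simp only [Matrix.mul_assoc]
      _ = P' * mat x * P := by rw [h1, Matrix.mul_one, he]
  have hfix : ∀ v, (P' * mat x * P) *ᵥ v = v ↔ ∀ i, ¬ Dp r i = true → v i = 0 := fun v => by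
    have h3 : (P' * mat x * P) *ᵥ v = v ↔ mat x *ᵥ (P *ᵥ v) = P *ᵥ v := by
      constructor
      · intro h4
        conv_rhs => rw [← h4]
        rw [Matrix.mulVec_mulVec, Matrix.mulVec_mulVec, ← Matrix.mul_assoc, ← Matrix.mul_assoc,
          h1, Matrix.one_mul]
      · intro h4
        rw [← Matrix.mulVec_mulVec, ← Matrix.mulVec_mulVec, h4, Matrix.mulVec_mulVec, h2,
          Matrix.one_mulVec]
    rw [h3, hW.fix, hP, blk_mulVec]
    simp only [Sum.elim_inr, Sum.elim_inl]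
    rw [hm]
    constructor
    · rintro ⟨h5, h6⟩ (i | i | i) hi
      · exact absurd rfl hi
      · exact h6 i (by simpa [Dp] using hi)
      · exact h5 i
    · intro h5
      exact ⟨fun i => h5 _ (by simp [Dp]), fun i hi => h5 _ (by simpa [Dp] using hi)⟩
  have hE := eq_nrm (r := r) _ hN hfix
  refine ⟨fun t => Option.elim t (moore F z).det⁻¹
    (Sum.elim z fun s => (P' * mat x * P) s.1.1 s.2.1), ⟨⟨fun h1r => ?_, fun j hj hjr => ?_⟩,
      hz0, inv_mul_cancel₀ hd⟩, ?_⟩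
  · have h3 := hc 0 h1r
    rw [fr_zero] at h3
    exact hQW z h3
  · have h3 := hc 0 (by omega)
    rw [fr_zero] at h3
    have h4 := Qf_add k (mid M) z (fr F j z)
    rw [hQW _ (W.add_mem h3 (hc j hjr)), hQW _ h3, hQW _ (hc j hjr), zero_add, zero_add] at h4
    exact h4.symm
  · funext i
    change (P * nrm r (fun s => (P' * mat x * P) s.1.1 s.2.1) * P') i.1 i.2 = mat x i.1 i.2
    have h3 : P * (P' * mat x * P) * P' = mat x :=
      calc P * (P' * mat x * P) * P' = P * P' * mat x * (P * P') := by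
            simp only [Matrix.mul_assoc]
        _ = mat x := by rw [h1, Matrix.one_mul, Matrix.mul_one]
    rw [← hE, h3]

end Pool.Agent.MP_a9d3bd_ag
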