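import Pool.Agent.MP_a9d3bd_ag.StrW
import Pool.Agent.MP_a9d3bd_ag.Frob

open Function TensorProduct Matrix

namespace Pool.Agent.MP_a9d3bd_ag

section aux

variable (k : Type) {F : Type} [Field k] [Field F] [Algebra F k] [Fintype F]
  {Ω : Type} [Field Ω] [Algebra k Ω]

omit [Fintype F] in
theorem StrMap_iso {σ : Type} [Fintype σ] (M : Matrix σ σ F) (S : Set (σ → Ω))
    (hQ : ∀ u ∈ S, Qf k M u = 0) (hB : ∀ u ∈ S, ∀ v ∈ S, Bf k M u v = 0) :
    ∀ v ∈ Submodule.span Ω S, Qf k M v = 0 := by
  have hz : ∀ u : σ → Ω, Bf k M u 0 = 0 := by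
    intro u
    have := Bf_smul k M (0 : Ω) u u
    rwa [zero_smul, zero_mul] at this
  have step : ∀ u : σ → Ω, (∀ v ∈ S, Bf k M u v = 0) →
      ∀ v ∈ Submodule.span Ω S, Bf k M u v = 0 := by
    intro u hu v hv
    induction hv using Submodule.span_induction with
    | mem v hv => exact hu v hv
    | zero => exact hz u
    | add v w _ _ h1 h2 => rw [Bf_add, h1, h2, add_zero]
    | smul t v _ h1 => rw [Bf_smul, h1, mul_zero]
  have h2 : ∀ u ∈ Submodule.span Ω S, ∀ v ∈ Submodule.span Ω S, Bf k M u v = 0 := by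
    intro u hu
    refine step u fun v hv => ?_
    rw [Bf_comm]
    exact step v (hB v hv) u hu
  intro v hv
  induction hv using Submodule.span_induction with
  | mem v hv => exact hQ v hv
  | zero =>
    have := Qf_smul k M (0 : Ω) 0
    rw [zero_smul] at this
    rw [this]; ring
  | add v w hv hw h3 h4 => rw [Qf_add, h3, h4, h2 v hv w hw]; ring
  | smul t v _ h3 => rw [Qf_smul, h3, mul_zero]

/-- the span of the first `r` Frobenius twists -/
def StrMapW (F : Type) [Fintype F] {Ω : Type} [Field Ω] {b : ℕ} (x : Fin b → Ω) (r : ℕ) :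
    Submodule Ω (Fin b → Ω) := Submodule.span Ω {z | ∃ i < r, z = fr F i x}

omit [Field F] in
theorem StrMap_mulVec {b : ℕ} (x g : Fin b → Ω) :
    moore F x *ᵥ g = ∑ i : Fin b, g i • fr F i.val x := by
  funext s
  simp [moore, Matrix.mulVec, dotProduct, Finset.sum_apply, mul_comm]

theorem StrMap_memW {b r : ℕ} (hr : r ≤ b) {x : Fin b → Ω} {Y' : Matrix (Fin b) (Fin b) Ω}
    (h1 : moore F x * Y' = 1) (h2 : Y' * moore F x = 1) (z : Fin b → Ω) :
    z ∈ StrMapW F x r ↔ ∀ s : Fin b, ¬ s.val < r → (Y' *ᵥ z) s = 0 := by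
  constructor
  · intro hz
    induction hz using Submodule.span_induction with
    | mem z hz =>
      obtain ⟨i, hi, rfl⟩ := hz
      intro s hs
      have e : fr F i x = moore F x *ᵥ Pi.single (⟨i, by omega⟩ : Fin b) 1 := by
        funext t
        simp [moore]
      rw [e, Matrix.mulVec_mulVec, h2, Matrix.one_mulVec, Pi.single_eq_of_ne]
      intro e
      exact hs (by rw [e]; exact hi)
    | zero => intro s _; simp
    | add v w _ _ h3 h4 => intro s hs; rw [Matrix.mulVec_add, Pi.add_apply, h3 s hs, h4 s hs, add_zero]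
    | smul t v _ h3 => intro s hs; rw [Matrix.mulVec_smul, Pi.smul_apply, h3 s hs, smul_zero]
  · intro h
    have e : z = moore F x *ᵥ (Y' *ᵥ z) := by rw [Matrix.mulVec_mulVec, h1, Matrix.one_mulVec]
    rw [e, StrMap_mulVec]
    refine Submodule.sum_mem _ fun i _ => ?_
    by_cases hi : i.val < r
    · exact Submodule.smul_mem _ _ (Submodule.subset_span ⟨i, hi, rfl⟩)
    · rw [h i hi, zero_smul]
      exact Submodule.zero_mem _

include k in
theorem StrMap_line {b r : ℕ} {x : Fin b → Ω} (z : Fin b → Ω) (hz : z ∈ StrMapW F x r) :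
    ∃ t : Ω, fr F 1 z - t • fr F r x ∈ StrMapW F x r := by
  induction hz using Submodule.span_induction with
  | mem z hz =>
    obtain ⟨i, hi, rfl⟩ := hz
    rw [fr_fr]
    by_cases h : 1 + i < r
    · exact ⟨0, by rw [zero_smul, sub_zero]; exact Submodule.subset_span ⟨_, h, rfl⟩⟩
    · have : 1 + i = r := by omega
      exact ⟨1, by rw [this, one_smul, sub_self]; exact Submodule.zero_mem _⟩
  | zero => exact ⟨0, by rw [fr_vzero, zero_smul, sub_zero]; exact Submodule.zero_mem _⟩
  | add v w _ _ h3 h4 =>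
    obtain ⟨t, ht⟩ := h3
    obtain ⟨t', ht'⟩ := h4
    refine ⟨t + t', ?_⟩
    have := Submodule.add_mem _ ht ht'
    rw [fr_add k, add_smul]
    convert this using 1
    abel
  | smul u v _ h3 =>
    obtain ⟨t, ht⟩ := h3
    refine ⟨u ^ Fintype.card F ^ 1 * t, ?_⟩
    have := Submodule.smul_mem _ (u ^ Fintype.card F ^ 1) ht
    rw [fr_smul, mul_smul, ← smul_sub]
    exact this

include k in
theorem StrMap_norat {b r : ℕ} (hr : r < b) {x : Fin b → Ω} {Y' : Matrix (Fin b) (Fin b) Ω}
    (h1 : moore F x * Y' = 1) (h2 : Y' * moore F x = 1) (z : Fin b → Ω)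
    (hz : z ∈ StrMapW F x r) (hf : fr F 1 z = z) : z = 0 := by
  obtain ⟨n, rfl⟩ : ∃ n, b = n + 1 := ⟨b - 1, by omega⟩
  have h0 := (StrMap_memW hr.le h1 h2 z).1 hz
  set g := Y' *ᵥ z with hg
  have e : z = moore F x *ᵥ g := by rw [hg, Matrix.mulVec_mulVec, h1, Matrix.one_mulVec]
  have hl : g (Fin.last n) = 0 := h0 _ (by simp only [Fin.val_last]; omega)
  let g' : Fin (n + 1) → Ω := Fin.cons 0 fun s : Fin n => g s.castSucc ^ Fintype.card F ^ 1
  have e' : fr F 1 z = moore F x *ᵥ g' := by
    rw [e, StrMap_mulVec, StrMap_mulVec, fr_sum k, Fin.sum_univ_castSucc, Fin.sum_univ_succ, hl,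
      zero_smul, fr_vzero, add_zero]
    simp only [g', Fin.cons_zero, Fin.cons_succ, zero_smul, zero_add, fr_smul, fr_fr,
      Fin.val_castSucc, Fin.val_succ, add_comm 1]
  have hgg : g = g' := by
    rw [hg, ← hf, e', Matrix.mulVec_mulVec, h2, Matrix.one_mulVec]
  have hq : Fintype.card F ^ 1 ≠ 0 := pow_ne_zero _ Fintype.card_ne_zero
  have hg0 : ∀ s, g s = 0 := by
    intro s
    induction s using Fin.induction with
    | zero => rw [hgg]; rfl
    | succ s ih =>
      rw [hgg]
      simp only [g', Fin.cons_succ]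
      rw [ih, zero_pow hq]
  rw [e, show g = 0 from funext hg0, Matrix.mulVec_zero]

theorem StrMap_fix {a b c r : ℕ} (hr : r ≤ b) {x : Fin b → Ω} {Y' : Matrix (Fin b) (Fin b) Ω}
    (h1 : moore F x * Y' = 1) (h2 : Y' * moore F x = 1) (h : Hx a b c r → Ω)
    (v : Ix a b c → Ω) :
    (blk a c (moore F x) * nrm r h * blk a c Y') *ᵥ v = v ↔
      (∀ i, v (Sum.inr (Sum.inr i)) = 0) ∧
        (fun s => v (Sum.inr (Sum.inl s))) ∈ StrMapW F x r := by
  have e1 : blk a c (moore F x) * blk a c Y' = 1 := by rw [blk_mul, h1, blk_one]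
  have e2 : blk a c Y' * blk a c (moore F x) = 1 := by rw [blk_mul, h2, blk_one]
  have key : (blk a c (moore F x) * nrm r h * blk a c Y') *ᵥ v = v ↔
      nrm r h *ᵥ (blk a c Y' *ᵥ v) = blk a c Y' *ᵥ v := by
    constructor
    · intro hv
      conv_rhs => rw [← hv]
      rw [Matrix.mulVec_mulVec, Matrix.mulVec_mulVec, ← Matrix.mul_assoc, ← Matrix.mul_assoc, e2,
        Matrix.one_mul]
    · intro hv
      rw [← Matrix.mulVec_mulVec, ← Matrix.mulVec_mulVec, hv, Matrix.mulVec_mulVec, e1,
        Matrix.one_mulVec]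
  rw [key, nrm_fix, StrMap_memW hr h1 h2, blk_mulVec]
  constructor
  · intro hv
    exact ⟨fun i => hv (Sum.inr (Sum.inr i)) (by simp [Dp]),
      fun s hs => hv (Sum.inr (Sum.inl s)) (by simpa [Dp] using hs)⟩
  · rintro ⟨h3, h4⟩ (i | s | i) hi
    · simp [Dp] at hi
    · exact h4 s (by simpa [Dp] using hi)
    · exact h3 i

theorem StrMap_Q {a b c : ℕ} {M : Matrix (Ix a b c) (Ix a b c) F} {m r : ℕ} (h : StrHyp M m r)
    {x : Fin b → Ω} (hx : Cone k (mid M) r Ω x) (v : Ix a b c → Ω)
    (h3 : ∀ i, v (Sum.inr (Sum.inr i)) = 0)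
    (h2 : (fun s => v (Sum.inr (Sum.inl s))) ∈ StrMapW F x r) : Qf k M v = 0 := by
  have hq : ∀ i : ℕ, Fintype.card F ^ i ≠ 0 := fun i => pow_ne_zero _ Fintype.card_ne_zero
  let S : Set (Ix a b c → Ω) := {u | (∃ i, u = Pi.single (Sum.inl i) 1) ∨
    ∃ i < r, u = emb a c (fr F i x)}
  have hQ : ∀ u ∈ S, Qf k M u = 0 := by
    rintro u (⟨i, rfl⟩ | ⟨i, hi, rfl⟩)
    · simp [Qf, rm, h.diag]
    · rw [Qf_emb, Qf_fr, hx.1 (by omega), zero_pow (hq i)]
  have hAB : ∀ (i : Fin a) (z : Fin b → Ω), Bf k M (Pi.single (Sum.inl i) 1) (emb a c z) = 0 := by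
    intro i z
    have : ∀ s, cF k Ω (M (Sum.inl i) (Sum.inr (Sum.inl s))) * z s +
        z s * cF k Ω (M (Sum.inr (Sum.inl s)) (Sum.inl i)) = 0 := by
      intro s
      rw [mul_comm (z s), ← add_mul, ← map_add, h.ab, map_zero, zero_mul]
    simp only [Bf, single_dotProduct, Matrix.mulVec_single_one, one_mul]
    simp only [Matrix.mulVec, dotProduct, Fintype.sum_sum_type, emb, rm, Sum.elim_inl,
      Sum.elim_inr, Matrix.map_apply, Matrix.col_apply, mul_zero, zero_mul, Finset.sum_const_zero,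
      zero_add, add_zero]
    rw [← Finset.sum_add_distrib]
    exact Finset.sum_eq_zero fun s _ => this s
  have hBB : ∀ i j, i < j → j < r → Bf k M (emb a c (fr F i x)) (emb a c (fr F j x)) = 0 := by
    intro i j hij hj
    have e : fr F j x = fr F i (fr F (j - i) x) := by rw [fr_fr]; congr 1; omega
    rw [Bf_emb, e, Bf_fr, hx.2 (j - i) (by omega) (by omega), zero_pow (hq i)]
  have hB : ∀ u ∈ S, ∀ v ∈ S, Bf k M u v = 0 := by
    rintro u hu w hw
    have hself : u = w → Bf k M u w = 0 := by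
      rintro rfl
      rw [Bf_self, hQ u hu, mul_zero]
    rcases hu with ⟨i, rfl⟩ | ⟨i, hi, rfl⟩ <;> rcases hw with ⟨j, rfl⟩ | ⟨j, hj, rfl⟩
    · have := congrArg (cF k Ω) (h.aa i j)
      simpa [Bf, rm] using this
    · exact hAB _ _
    · rw [Bf_comm]; exact hAB _ _
    · rcases lt_trichotomy i j with hij | rfl | hij
      · exact hBB i j hij hj
      · exact hself rfl
      · rw [Bf_comm]; exact hBB j i hij hi
  refine StrMap_iso k M S hQ hB v ?_
  have hemb : ∀ z ∈ StrMapW F x r, emb a c z ∈ Submodule.span Ω S := by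
    intro z hz
    induction hz using Submodule.span_induction with
    | mem z hz =>
      obtain ⟨i, hi, rfl⟩ := hz
      exact Submodule.subset_span (Or.inr ⟨i, hi, rfl⟩)
    | zero =>
      have : emb a c (0 : Fin b → Ω) = 0 := by
        funext t
        rcases t with t | t | t <;> rfl
      rw [this]
      exact Submodule.zero_mem _
    | add u w _ _ h4 h5 =>
      have : emb a c (u + w) = emb a c u + emb a c w := by
        funext t
        rcases t with t | t | t <;> simp [emb]
      rw [this]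
      exact Submodule.add_mem _ h4 h5
    | smul t u _ h4 =>
      have : emb a c (t • u) = t • emb a c u := by
        funext t
        rcases t with t | t | t <;> simp [emb]
      rw [this]
      exact Submodule.smul_mem _ _ h4
  have e : v = ∑ i : Fin a, v (Sum.inl i) • (Pi.single (Sum.inl i) 1 : Ix a b c → Ω) +
      emb a c fun s => v (Sum.inr (Sum.inl s)) := by
    funext t
    rcases t with t | t | t
    · simp [emb, Finset.sum_apply, Pi.single_apply]
    · simp [emb, Finset.sum_apply]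
    · simp [emb, Finset.sum_apply, h3]
  rw [e]
  refine Submodule.add_mem _ (Submodule.sum_mem _ fun i _ => Submodule.smul_mem _ _ ?_)
    (hemb _ h2)
  exact Submodule.subset_span (Or.inl ⟨i, rfl⟩)

end aux

theorem str_map (k : Type) {F : Type} [Field k] [Field F] [Algebra F k] [Fintype F] {a b c : ℕ}
    {M : Matrix (Ix a b c) (Ix a b c) F} {m r : ℕ} (h : StrHyp M m r) {Ω : Type} [Field Ω]
    [Algebra k Ω] {y : Tx a b c r → Ω} (hy : PS k M r Ω y) :
    CS k M m (UA F a b c) (UB F a b c) Ω (Par k F a b c r Ω y) ∧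
      Gen k (UA F a b c) (UB F a b c) Ω (Par k F a b c r Ω y) := by
  obtain ⟨hc, -, hd⟩ := hy
  set x := xv y with hx
  set Y' : Matrix (Fin b) (Fin b) Ω := y none • (moore F x).adjugate with hY'
  have h1 : moore F x * Y' = 1 := by
    rw [hY', Matrix.mul_smul, Matrix.mul_adjugate, smul_smul, hd, one_smul]
  have h2 : Y' * moore F x = 1 := by
    rw [hY', Matrix.smul_mul, Matrix.adjugate_mul, smul_smul, hd, one_smul]
  have hr : r ≤ b := by
    by_cases hb : b = 0
    · rw [h.zero hb]; omega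
    · exact (h.pos hb).2.le
  have e1 : blk a c (moore F x) * blk a c Y' = 1 := by rw [blk_mul, h1, blk_one]
  have e2 : blk a c Y' * blk a c (moore F x) = 1 := by rw [blk_mul, h2, blk_one]
  have hmat : mat (Par k F a b c r Ω y) = blk a c (moore F x) * nrm r (hv y) * blk a c Y' := rfl
  have hfix := StrMap_fix (F := F) hr h1 h2 (hv y)
  set e := blk a c (moore F x) * nrm r (hv y) * blk a c Y' with he
  have hee : e * e = e := by
    calc e * e = blk a c (moore F x) * (nrm r (hv y) * (blk a c Y' * blk a c (moore F x)) *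
          nrm r (hv y)) * blk a c Y' := by simp only [he, Matrix.mul_assoc]
      _ = e := by rw [e2, Matrix.mul_one, nrm_mul]
  have hq : Fintype.card F ^ 1 ≠ 0 := pow_ne_zero _ Fintype.card_ne_zero
  have hinj : ∀ t : F, cF k Ω t = 0 → t = 0 := fun t ht =>
    (cF k Ω).injective (by rw [ht, map_zero])
  refine ⟨⟨?_, ?_, ?_⟩, ?_, ?_⟩
  · rw [jpt_iff, hmat]
    refine ⟨hee, ?_, ?_, emb a c (fr F r x), ?_⟩
    · rw [he, Matrix.rank_mul_eq_left_of_isUnit_det _ _ (Matrix.isUnit_det_of_right_inverse e2),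
        Matrix.rank_mul_eq_right_of_isUnit_det _ _ (Matrix.isUnit_det_of_right_inverse e1),
        nrm_rank hr, h.sum]
    · intro v hv
      exact StrMap_Q k h hc v ((hfix v).1 hv).1 ((hfix v).1 hv).2
    · intro v hv
      obtain ⟨h3, h4⟩ := (hfix v).1 hv
      obtain ⟨t, ht⟩ := StrMap_line k _ h4
      refine ⟨t, (hfix _).2 ⟨fun i => ?_, ht⟩⟩
      simp only [Pi.sub_apply, Pi.smul_apply, fr, emb, Sum.elim_inr, h3, zero_pow hq, smul_zero,
        sub_zero]
  · intro u hu
    rw [hmat]
    have hu' : ∀ i, u (Sum.inr i) = 0 := hu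
    refine (hfix _).2 ⟨fun i => by simp [rv, hu'], ?_⟩
    have : (fun s => rv k Ω u (Sum.inr (Sum.inl s))) = 0 := by
      funext s
      simp [rv, hu']
    rw [this]
    exact Submodule.zero_mem _
  · intro l hl
    rw [hmat]
    have l1 : ∀ i, l (Sum.inl i) = 0 := fun i => by
      have := hl (Pi.single (Sum.inl i) 1) fun j => by simp
      simpa using this
    have l2 : ∀ i, l (Sum.inr (Sum.inl i)) = 0 := fun i => by
      have := hl (Pi.single (Sum.inr (Sum.inl i)) 1) fun j => by simp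
      simpa using this
    funext j
    have hj := ((hfix (e *ᵥ Pi.single j 1)).1 (by rw [Matrix.mulVec_mulVec, hee])).1
    simp only [Matrix.mulVec_single_one, Matrix.col_apply] at hj
    simp [Matrix.vecMul, dotProduct, Fintype.sum_sum_type, rv, l1, l2, hj]
  · intro u hu
    rw [hmat] at hu
    obtain ⟨h3, h4⟩ := (hfix _).1 hu
    rintro (s | i)
    · have hb : b ≠ 0 := by
        rintro rfl
        exact s.elim0
      have := StrMap_norat k (h.pos hb).2 h1 h2 _ h4
        (fr_rv k 1 fun s => u (Sum.inr (Sum.inl s)))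
      exact hinj _ (congrFun this s)
    · exact hinj _ (h3 i)
  · intro l hl u hu
    rw [hmat] at hl
    have hu' : ∀ i, u (Sum.inr (Sum.inr i)) = 0 := hu
    have hk : ∀ v, e *ᵥ v = v → rv k Ω l ⬝ᵥ v = 0 := by
      intro v hv
      rw [← hv, Matrix.dotProduct_mulVec, hl, zero_dotProduct]
    have l1 : ∀ i, l (Sum.inl i) = 0 := fun i => by
      have := hk (Pi.single (Sum.inl i) 1) ((hfix _).2 ⟨fun j => by simp, by
        have : (fun s => (Pi.single (Sum.inl i) 1 : Ix a b c → Ω) (Sum.inr (Sum.inl s))) = 0 := by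
          funext s
          simp
        rw [this]
        exact Submodule.zero_mem _⟩)
      exact hinj _ (by simpa [rv] using this)
    have l2 : ∀ s, l (Sum.inr (Sum.inl s)) = 0 := fun s => by
      have hb : b ≠ 0 := by
        rintro rfl
        exact s.elim0
      have h5 := hk (emb a c x) ((hfix _).2 ⟨fun j => rfl,
        Submodule.subset_span ⟨0, (h.pos hb).1, (fr_zero x).symm⟩⟩)
      have h6 : rv k Ω (fun s => l (Sum.inr (Sum.inl s))) ⬝ᵥ x = 0 := by
        simpa [dotProduct, Fintype.sum_sum_type, emb, rv] using h5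
      have h7 : rv k Ω (fun s => l (Sum.inr (Sum.inl s))) ᵥ* moore F x = 0 := by
        funext i
        have := dot_fr k i.val (fun s => l (Sum.inr (Sum.inl s))) x
        rw [h6, zero_pow (pow_ne_zero _ Fintype.card_ne_zero)] at this
        exact this
      have h8 : rv k Ω (fun s => l (Sum.inr (Sum.inl s))) = 0 := by
        rw [← Matrix.vecMul_one (rv k Ω fun s => l (Sum.inr (Sum.inl s))), ← h1,
          ← Matrix.vecMul_vecMul, h7, Matrix.zero_vecMul]
      exact hinj _ (congrFun h8 s)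
    simp [dotProduct, Fintype.sum_sum_type, l1, l2, hu']

end Pool.Agent.MP_a9d3bd_ag
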