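import Pool.Agent.MP_a9d3bd_ag.StrX
import Pool.Agent.MP_a9d3bd_ag.Frob

open Function TensorProduct Matrix

namespace Pool.Agent.MP_a9d3bd_ag

theorem strVal_scale {O Ω : Type} [CommRing O] [IsDomain O] [ValuationRing O] [Field Ω]
    [Algebra O Ω] [IsFractionRing O Ω] {b : ℕ} (X : Fin b → Ω) (s₁ : Fin b) (h₁ : X s₁ ≠ 0) :
    ∃ (s₀ : Fin b) (z : Fin b → O), X s₀ ≠ 0 ∧ z s₀ = 1 ∧
      X = X s₀ • fun s => algebraMap O Ω (z s) := by
  classical
  obtain ⟨s₀, -, hs₀⟩ := Finset.exists_max_image Finset.univ
    (fun s => ValuationRing.valuation O Ω (X s)) ⟨s₁, Finset.mem_univ _⟩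
  have h0 : X s₀ ≠ 0 := by
    intro h
    have := hs₀ s₁ (Finset.mem_univ _)
    rw [h, map_zero, le_zero_iff] at this
    exact h₁ ((Valuation.zero_iff _).1 this)
  have hz : ∀ s, ∃ o : O, algebraMap O Ω o = X s / X s₀ := by
    intro s
    rw [← ValuationRing.mem_integer_iff, Valuation.mem_integer_iff, map_div₀]
    exact div_le_one_of_le₀ (hs₀ s (Finset.mem_univ _)) zero_le
  choose z hz using hz
  refine ⟨s₀, z, h0, ?_, ?_⟩
  · apply IsFractionRing.injective O Ω
    rw [hz, div_self h0, map_one]
  · funext s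
    simp only [Pi.smul_apply, smul_eq_mul, hz]
    field_simp

theorem strVal_emb_smul {R : Type} [CommRing R] {a b c : ℕ} (t : R) (v : Fin b → R) :
    emb a c (t • v) = t • emb a c v := by
  funext i
  rcases i with i | i | i <;> simp [emb]

theorem strVal_emb_map {R R' : Type} [CommRing R] [CommRing R'] (f : R →+* R') {a b c : ℕ}
    (v : Fin b → R) : (fun i => f (emb a c v i)) = emb a c fun s => f (v s) := by
  funext i
  rcases i with i | i | i <;> simp [emb]

theorem strVal_fr_map {R R' : Type} [CommRing R] [CommRing R'] (f : R →+* R') (F : Type)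
    [Fintype F] {σ : Type} (j : ℕ) (v : σ → R) :
    (fun s => f (fr F j v s)) = fr F j fun s => f (v s) := by
  funext s
  simp [fr]

theorem strVal_moore_map {R R' : Type} [CommRing R] [CommRing R'] (f : R →+* R') (F : Type)
    [Fintype F] {b : ℕ} (v : Fin b → R) :
    (moore F v).map f = moore F fun s => f (v s) := by
  ext s i
  simp [moore, fr]

theorem strVal_fix_map {R R' σ : Type} [CommRing R] [CommRing R'] [Fintype σ] (f : R →+* R')
    (E : Matrix σ σ R) (v : σ → R) :
    (fun i => f ((E *ᵥ v) i)) = E.map f *ᵥ fun i => f (v i) := by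
  funext i
  simp [Matrix.mulVec, dotProduct, map_sum]

theorem strVal_inv {R : Type} [CommRing R] {a b c : ℕ} (Y : Matrix (Fin b) (Fin b) R) (t : R)
    (ht : t * Y.det = 1) :
    blk a c (t • Y.adjugate) * blk a c Y = 1 ∧ blk a c Y * blk a c (t • Y.adjugate) = 1 := by
  constructor
  · rw [blk_mul, Matrix.smul_mul, Matrix.adjugate_mul, smul_smul, ht, one_smul, blk_one]
  · rw [blk_mul, Matrix.mul_smul, Matrix.mul_adjugate, smul_smul, ht, one_smul, blk_one]

theorem strVal_emat_fix {R : Type} [CommRing R] (F : Type) [Fintype F] {a b c r : ℕ}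
    (y : Tx a b c r → R) (ht : y none * (moore F (xv y)).det = 1) (i : Fin b) (hi : i.val < r) :
    emat F y *ᵥ emb a c (fr F i.val (xv y)) = emb a c (fr F i.val (xv y)) := by
  classical
  have h1 : emb a c (fr F i.val (xv y)) =
      blk a c (moore F (xv y)) *ᵥ emb a c (Pi.single i (1 : R)) := by
    rw [blk_mulVec]
    funext j
    rcases j with j | j | j
    · simp [emb]
    · simp [emb, moore]
    · simp [emb]
  have h2 : nrm r (hv y) *ᵥ emb a c (Pi.single i (1 : R)) = emb a c (Pi.single i (1 : R)) := by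
    rw [nrm_fix]
    intro j hj
    rcases j with j | j | j
    · simp [emb]
    · have : j ≠ i := by
        rintro rfl
        exact hj (by simp [Dp, hi])
      simp [emb, this]
    · simp [emb]
  rw [h1, emat, Matrix.mulVec_mulVec, Matrix.mul_assoc, (strVal_inv _ _ ht).1, Matrix.mul_one,
    ← Matrix.mulVec_mulVec, h2]

theorem str_val (k : Type) {F : Type} [Field k] [Field F] [Algebra F k] [Fintype F] {a b c : ℕ}
    {M : Matrix (Ix a b c) (Ix a b c) F} {m r : ℕ} (h : StrHyp M m r) :
    ValCrit (PS k M r) (fun Ω _ _ x => CS k M m (UA F a b c) (UB F a b c) Ω x ∧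
      Gen k (UA F a b c) (UB F a b c) Ω x) (Par k F a b c r) := by
  classical
  intro O Ω κ _ _ _ _ _ _ _ _ _ _ _ π hπ y x hy hx hG
  obtain ⟨-, hy0, ht⟩ := hy
  have hinj := IsFractionRing.injective O Ω
  have hE : (mat x).map (algebraMap O Ω) = emat F y := by
    ext i j
    exact hx (i, j)
  have hEκ : (mat x).map (π : O →+* κ) = mat fun p => π (x p) := by
    ext i j
    rfl
  obtain ⟨W, hW⟩ := exists_wok k hG.1 hG.2
  have hrk : Module.finrank κ W = r := by
    have h1 := hW.rank
    have h2 := h.sum
    omega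
  have key : ∃ X : Fin b → O, (fun s => algebraMap O Ω (X s)) = xv y ∧
      IsUnit (moore F X).det := by
    rcases Nat.eq_zero_or_pos b with rfl | hb
    · exact ⟨fun s => s.elim0, funext fun s => s.elim0, by simp⟩
    have hrb := (h.pos hb.ne').2
    have C : ∀ (z : Fin b → O) (t : Ω), t ≠ 0 → xv y = t • (fun s => algebraMap O Ω (z s)) →
        (fun s => π (z s)) ≠ 0 →
        (∀ l : Fin b → F, rv k κ l ⬝ᵥ (fun s => π (z s)) = 0 → l = 0) ∧
          (moore F fun s => π (z s)).det ≠ 0 := by
      intro z t ht0 hz hz0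
      refine (gen_of_chain k W hW.norat hW.nohyp hz0 ?_).2
      intro i hi
      rw [hrk] at hi
      have f1 := strVal_emat_fix F y ht ⟨i, hi.trans hrb⟩ hi
      simp only at f1
      rw [hz, fr_smul, strVal_emb_smul, Matrix.mulVec_smul] at f1
      have f2 := smul_right_injective _ (pow_ne_zero (Fintype.card F ^ i) ht0) f1
      have f3 : mat x *ᵥ emb a c (fr F i z) = emb a c (fr F i z) := by
        funext j
        apply hinj
        have g1 := congrFun (strVal_fix_map (algebraMap O Ω) (mat x) (emb a c (fr F i z))) j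
        have g2 := strVal_emb_map (algebraMap O Ω) (a := a) (c := c) (fr F i z)
        rw [strVal_fr_map] at g2
        rw [g1, hE, g2, f2, ← g2]
      have f4 := strVal_fix_map (π : O →+* κ) (mat x) (emb a c (fr F i z))
      rw [f3, hEκ, strVal_emb_map, strVal_fr_map] at f4
      exact ((hW.fix _).1 f4.symm).2
    have h00 : xv y ⟨0, hb⟩ = 1 := hy0 _ rfl
    obtain ⟨s₀, z, hs₀, hz1, hz⟩ := strVal_scale (O := O) (xv y) ⟨0, hb⟩
      (by rw [h00]; exact one_ne_zero)
    have hz0 : (fun s => π (z s)) ≠ 0 := by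
      intro h0
      have := congrFun h0 s₀
      simp [hz1] at this
    have hu : IsUnit (z ⟨0, hb⟩) := by
      apply hπ
      intro h0
      have h1 := (C z _ hs₀ hz hz0).1 (Pi.single ⟨0, hb⟩ 1) (by
        rw [dotProduct, Finset.sum_eq_single ⟨0, hb⟩]
        · rw [h0, mul_zero]
        · intro s _ hs
          simp [rv, hs]
        · simp)
      have := congrFun h1 ⟨0, hb⟩
      simp at this
    obtain ⟨u, hu⟩ := hu.exists_left_inv
    have hs : xv y s₀ = algebraMap O Ω u := by
      have h1 := congrFun hz ⟨0, hb⟩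
      rw [h00] at h1
      simp only [Pi.smul_apply, smul_eq_mul] at h1
      have h2 := congrArg (algebraMap O Ω) hu
      rw [map_mul, map_one] at h2
      calc xv y s₀ = xv y s₀ * (algebraMap O Ω u * algebraMap O Ω (z ⟨0, hb⟩)) := by
            rw [h2, mul_one]
        _ = algebraMap O Ω u * (xv y s₀ * algebraMap O Ω (z ⟨0, hb⟩)) := by ring
        _ = _ := by rw [← h1, mul_one]
    have hX : (fun s => algebraMap O Ω (u * z s)) = xv y := by
      funext s
      have h1 := congrFun hz s
      simp only [Pi.smul_apply, smul_eq_mul] at h1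
      rw [map_mul, h1, hs]
    refine ⟨fun s => u * z s, hX, hπ _ ?_⟩
    have h3 := (C (fun s => u * z s) 1 one_ne_zero (by rw [one_smul, hX]) (by
      intro h0
      have := congrFun h0 ⟨0, hb⟩
      simp only [hu, map_one, Pi.zero_apply] at this
      exact one_ne_zero this)).2
    have h4 := RingHom.map_det (π : O →+* κ) (moore F fun s => u * z s)
    rw [RingHom.mapMatrix_apply, strVal_moore_map] at h4
    intro h5
    exact h3 (h4.symm.trans h5)
  obtain ⟨X, hX, hd⟩ := key
  obtain ⟨d, hd⟩ := hd.exists_left_inv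
  have hM : (moore F X).map (algebraMap O Ω) = moore F (xv y) := by
    rw [strVal_moore_map, hX]
  have hdet : algebraMap O Ω (moore F X).det = (moore F (xv y)).det := by
    rw [RingHom.map_det, RingHom.mapMatrix_apply, hM]
  have htd : algebraMap O Ω d = y none := by
    have h2 := congrArg (algebraMap O Ω) hd
    rw [map_mul, map_one, hdet] at h2
    calc algebraMap O Ω d = algebraMap O Ω d * (y none * (moore F (xv y)).det) := by
          rw [ht, mul_one]
      _ = y none * (algebraMap O Ω d * (moore F (xv y)).det) := by ring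
      _ = _ := by rw [h2, mul_one]
  intro t
  rcases t with _ | s | s
  · exact ⟨d, htd⟩
  · exact ⟨X s, congrFun hX s⟩
  · have hA : (d • (moore F X).adjugate).map (algebraMap O Ω) =
        y none • (moore F (xv y)).adjugate := by
      have h1 := RingHom.map_adjugate (algebraMap O Ω) (moore F X)
      rw [RingHom.mapMatrix_apply, RingHom.mapMatrix_apply, hM] at h1
      rw [← h1, ← htd]
      ext i j
      simp
    have hN : (blk a c (d • (moore F X).adjugate) * mat x * blk a c (moore F X)).map
        (algebraMap O Ω) = nrm r (hv y) := by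
      rw [Matrix.map_mul, Matrix.map_mul, blk_map, blk_map, hA, hM, hE, emat]
      have hi := (strVal_inv (a := a) (c := c) _ _ ht).1
      simp only [← Matrix.mul_assoc]
      rw [hi, Matrix.one_mul, Matrix.mul_assoc, hi, Matrix.mul_one]
    refine ⟨(blk a c (d • (moore F X).adjugate) * mat x * blk a c (moore F X)) s.1.1 s.2.1, ?_⟩
    have h1 := congrFun (congrFun hN s.1.1) s.2.1
    rw [Matrix.map_apply] at h1
    rw [h1]
    simp only [nrm, Matrix.of_apply, dif_pos s.1.2, dif_neg s.2.2]
    rfl

end Pool.Agent.MP_a9d3bd_ag
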