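import Pool.Agent.MP_a9d3bd_ag.StrB
import Pool.Agent.MP_a9d3bd_ag.StrMap
import Pool.Agent.MP_a9d3bd_ag.StrLift
import Pool.Agent.MP_a9d3bd_ag.StrVal
import Pool.Agent.MP_a9d3bd_ag.Cone
import Pool.Agent.MP_a9d3bd_ag.Bridge

open Function TensorProduct Matrix

namespace Pool.Agent.MP_a9d3bd_ag

variable {k F : Type} [Field k] [Field F] [Algebra F k] [Fintype F]

theorem ps_van {a b c : ℕ} (M : Matrix (Ix a b c) (Ix a b c) F) (r : ℕ) (h : ConeOK k (mid M)) :
    VanS (PS k M r) := by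
  have hg : IsNatF (fun R _ _ x => (moore F fun s => x (Sum.inl s)).det :
      PFun k (Fin b ⊕ Hx a b c r)) := by
    intro R R' _ _ _ _ f x
    rw [AlgHom.map_det]
    congr 1
    ext s i
    exact fr_map k f i.val (fun s => x (Sum.inl s)) s
  rcases Nat.eq_zero_or_pos b with rfl | hb
  · refine (openS (prodS (τ := Hx a 0 c r) (h r).1) hg).congr fun Ω _ _ y => ?_
    exact ⟨fun hy => ⟨hy.1, hy.2.2⟩, fun hy => ⟨hy.1, fun s => s.elim0, hy.2⟩⟩
  · refine (openS (prodS (τ := Hx a b c r) ((h r).2 (Pi.single ⟨0, hb⟩ 1))) hg).congr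
      fun Ω _ _ y => ?_
    have e : rv k Ω (Pi.single (⟨0, hb⟩ : Fin b) (1 : F)) ⬝ᵥ xv y = xv y ⟨0, hb⟩ := by
      have : rv k Ω (Pi.single (⟨0, hb⟩ : Fin b) (1 : F)) = Pi.single ⟨0, hb⟩ 1 := by
        funext s
        by_cases hs : s = ⟨0, hb⟩
        · subst hs; simp [rv]
        · simp [rv, hs]
      rw [this, single_dotProduct, one_mul]
    refine ⟨fun hy => ⟨⟨hy.1, e.trans (hy.2.1 _ rfl)⟩, hy.2.2⟩, fun hy => ⟨hy.1.1, fun s hs => ?_,
      hy.2⟩⟩
    have : s = ⟨0, hb⟩ := Fin.ext hs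
    rw [this]
    exact e.symm.trans hy.1.2

theorem Main_step (hk : ∀ a b : F, ∃ z : k, z ^ 2 + algebraMap F k a * z + algebraMap F k b = 0)
    {a b c : ℕ} (M : Matrix (Ix a b c) (Ix a b c) F) (m : ℕ)
    (ih : ∀ V V' : Submodule F (Ix a b c → F), UA F a b c ≤ V → V' ≤ UB F a b c →
      (V, V') ≠ (UA F a b c, UB F a b c) → VanS (CS k M m V V')) :
    VanS (CS k M m (UA F a b c) (UB F a b c)) := by
  have : Finite (Submodule F (Ix a b c → F)) := Finite.of_injective _ SetLike.coe_injective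
  let β := {p : Submodule F (Ix a b c → F) × Submodule F (Ix a b c → F) //
    UA F a b c ≤ p.1 ∧ p.2 ≤ UB F a b c ∧ p ≠ (UA F a b c, UB F a b c)}
  have hC : ∀ p : β, VanS (fun Ω _ _ x => CS k M m (UA F a b c) (UB F a b c) Ω x ∧
      CS k M m p.1.1 p.1.2 Ω x : Fam k (Ix a b c × Ix a b c)) := fun p =>
    (ih p.1.1 p.1.2 p.2.1 p.2.2.1 p.2.2.2).congr fun Ω _ _ x =>
      ⟨fun h => h.2, fun h => ⟨cs_mono k p.2.1 p.2.2.1 h, h⟩⟩
  have hG : ∀ (Ω : Type) [Field Ω] [Algebra k Ω] x, CS k M m (UA F a b c) (UB F a b c) Ω x →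
      (Gen k (UA F a b c) (UB F a b c) Ω x ↔ ∀ p : β, ¬ CS k M m p.1.1 p.1.2 Ω x) :=
    fun Ω _ _ x hx => (gen_iff k hx).trans
      ⟨fun h p => h _ _ p.2.1 p.2.2.1 p.2.2.2, fun h V V' h1 h2 h3 => h ⟨(V, V'), h1, h2, h3⟩⟩
  by_cases hS : StrHyp M m (m - a)
  · exact stratS (fun p : β => CS k M m p.1.1 p.1.2) (Gen k (UA F a b c) (UB F a b c))
      (isNat_par k (m - a)) (isCl_cs k M m _ _) hC (ps_van M (m - a) (coneOK_all hk _)) hG
      (fun Ω _ _ y hy => str_map k hS hy) (fun Ω _ _ _ x hx hg => str_lift k hS hx hg)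
      (str_val k hS)
  · refine coverS (fun p : β => CS k M m p.1.1 p.1.2) (isCl_cs k M m _ _) hC fun Ω _ _ _ x hx => ?_
    by_contra h
    push Not at h
    obtain ⟨W, hW⟩ := exists_wok k hx ((hG Ω x hx).mpr h)
    exact hS (strHyp_of k hx.1 hW)

theorem Main_aux (hk : ∀ a b : F, ∃ z : k, z ^ 2 + algebraMap F k a * z + algebraMap F k b = 0)
    (N : ℕ) : ∀ (σ : Type) [Fintype σ] [DecidableEq σ] (M : Matrix σ σ F) (m : ℕ)
    (U U' : Submodule F (σ → F)),
    Module.finrank F U' + (Fintype.card σ - Module.finrank F U) ≤ N → VanS (CS k M m U U') := by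
  induction N using Nat.strong_induction_on with
  | _ N ih =>
  intro σ _ _ M m U U' hN
  by_cases hU : U ≤ U'
  swap
  · exact emptyS (isCl_cs k M m U U') fun Ω _ _ _ x hx => hU (cs_le k hx)
  obtain ⟨a, b, c, G, G', e1, e2, hA, hB⟩ := nf_adapt U U' hU
  refine cs_basis k M m G G' e1 e2 hA hB (Main_step hk _ m fun V V' h1 h2 h3 => ?_)
  let e : (Ix a b c → F) ≃ₗ[F] (σ → F) := LinearEquiv.ofLinearMap G.mulVecLin G'.mulVecLin
    (by rw [← Matrix.mulVecLin_mul, e1, Matrix.mulVecLin_one])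
    (by rw [← Matrix.mulVecLin_mul, e2, Matrix.mulVecLin_one])
  have f1 : Module.finrank F (UA F a b c) = Module.finrank F U := by
    have : UA F a b c = U.comap e.toLinearMap := by ext u; exact hA u
    rw [this, Submodule.comap_equiv_eq_map_symm, LinearEquiv.finrank_map_eq]
  have f2 : Module.finrank F (UB F a b c) = Module.finrank F U' := by
    have : UB F a b c = U'.comap e.toLinearMap := by ext u; exact hB u
    rw [this, Submodule.comap_equiv_eq_map_symm, LinearEquiv.finrank_map_eq]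
  have f3 : Fintype.card (Ix a b c) = Fintype.card σ := by
    have := e.finrank_eq
    rwa [Module.finrank_fintype_fun_eq_card, Module.finrank_fintype_fun_eq_card] at this
  have g1 := Submodule.finrank_mono h1
  have g2 := Submodule.finrank_mono h2
  have g3 : Module.finrank F V ≤ Fintype.card (Ix a b c) := by
    have := Submodule.finrank_le V
    rwa [Module.finrank_fintype_fun_eq_card] at this
  have g4 : Module.finrank F (UA F a b c) < Module.finrank F V ∨
      Module.finrank F V' < Module.finrank F (UB F a b c) := by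
    by_contra h
    push Not at h
    exact h3 (Prod.ext (Submodule.eq_of_le_of_finrank_le h1 h.1).symm
      (Submodule.eq_of_le_of_finrank_le h2 h.2))
  exact ih (Module.finrank F V' + (Fintype.card (Ix a b c) - Module.finrank F V)) (by omega)
    _ _ m V V' le_rfl

theorem cs_van (hk : ∀ a b : F, ∃ z : k, z ^ 2 + algebraMap F k a * z + algebraMap F k b = 0)
    {σ : Type} [Fintype σ] [DecidableEq σ] (M : Matrix σ σ F) (m : ℕ)
    (U U' : Submodule F (σ → F)) : VanS (CS k M m U U') := by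
  exact Main_aux hk _ σ M m U U' le_rfl

theorem main (hk : ∀ a b : F, ∃ z : k, z ^ 2 + algebraMap F k a * z + algebraMap F k b = 0)
    {σ : Type} [Fintype σ] [DecidableEq σ] (M : Matrix σ σ F) (m : ℕ) :
    ChowSpanned k (JRing k M m) := by
  refine Van.chowSpanned ?_
  have h := (cs_van hk M m ⊥ ⊤).congr fun Ω _ _ x => cs_bot_top k M m x
  exact h.van (cut_jpt k M m) le_rfl Ideal.le_radical

end Pool.Agent.MP_a9d3bd_ag
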