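import Pool.Agent.MP_a9d3bd_ag.Main

namespace Pool.Agent.MP_a9d3bd_ag.OrthogonalDLOld

open Pool.Agent.MP_a9d3bd_ag

theorem result (F k σ : Type) [Field F] [Fintype F] [Field k] [Algebra F k] [Fintype σ]
    [DecidableEq σ] (hk : ∀ a b : F, ∃ z : k, z ^ 2 + algebraMap F k a * z + algebraMap F k b = 0)
    (M : Matrix σ σ F) (m : ℕ) : ChowSpanned k (JRing k M m) :=
  main hk M m

end Pool.Agent.MP_a9d3bd_ag.OrthogonalDLOld
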