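import Pool.Agent.MP_a9d3bd_ag.Idem
import Pool.Agent.MP_a9d3bd_ag.PresC

open Function TensorProduct Matrix

namespace Pool.Agent.MP_a9d3bd_ag

variable (k : Type) {F σ τ : Type} [Field k] [Field F] [Algebra F k] [Fintype F] [Fintype σ]
  [DecidableEq σ] [Fintype τ] [DecidableEq τ]

omit [Fintype F] in
theorem StrB_ann (W : Submodule F (σ → F)) {u : σ → F}
    (h : ∀ l : σ → F, (∀ w ∈ W, l ⬝ᵥ w = 0) → l ⬝ᵥ u = 0) : u ∈ W := by
  refine (Subspace.forall_mem_dualAnnihilator_apply_eq_zero_iff W u).1 fun φ hφ => ?_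
  obtain ⟨l, rfl⟩ := (dotProductEquiv F σ).surjective φ
  exact h l fun w hw => (Submodule.mem_dualAnnihilator _).1 hφ w hw

/-- the rational vectors that are fixed -/
def StrB_A (F : Type) [Field F] [Algebra F k] {Ω : Type} [Field Ω] [Algebra k Ω]
    (e : Matrix σ σ Ω) : Submodule F (σ → F) where
  carrier := {u | e *ᵥ rv k Ω u = rv k Ω u}
  add_mem' {u v} hu hv := by
    change e *ᵥ rv k Ω (u + v) = _
    rw [rv_add, mulVec_add, hu, hv]
  zero_mem' := by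
    change e *ᵥ rv k Ω 0 = _
    rw [rv_zero, mulVec_zero]
  smul_mem' c u hu := by
    change e *ᵥ rv k Ω (c • u) = _
    rw [rv_smul, mulVec_smul, hu]

/-- the rational forms that vanish on the image -/
def StrB_L (F : Type) [Field F] [Algebra F k] {Ω : Type} [Field Ω] [Algebra k Ω]
    (e : Matrix σ σ Ω) : Submodule F (σ → F) where
  carrier := {l | rv k Ω l ᵥ* e = 0}
  add_mem' {u v} hu hv := by
    change rv k Ω (u + v) ᵥ* e = _
    rw [rv_add, add_vecMul, hu, hv, add_zero]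
  zero_mem' := by
    change rv k Ω 0 ᵥ* e = _
    rw [rv_zero, zero_vecMul]
  smul_mem' c u hu := by
    change rv k Ω (c • u) ᵥ* e = _
    rw [rv_smul, smul_vecMul, hu, smul_zero]

/-- the rational hull of the image -/
def StrB_B (F : Type) [Field F] [Algebra F k] {Ω : Type} [Field Ω] [Algebra k Ω]
    (e : Matrix σ σ Ω) : Submodule F (σ → F) where
  carrier := {u | ∀ l : σ → F, rv k Ω l ᵥ* e = 0 → l ⬝ᵥ u = 0}
  add_mem' hu hv l hl := by rw [dotProduct_add, hu l hl, hv l hl, add_zero]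
  zero_mem' l _ := dotProduct_zero l
  smul_mem' c u hu l hl := by rw [dotProduct_smul, hu l hl, smul_zero]

theorem StrB_cs {M : Matrix σ σ F} {m : ℕ} {U U' : Submodule F (σ → F)} {Ω : Type} [Field Ω]
    [Algebra k Ω] {x : σ × σ → Ω} : CS k M m U U' Ω x ↔
      JPt k M m Ω x ∧ U ≤ StrB_A k F (mat x) ∧ StrB_B k F (mat x) ≤ U' := by
  refine and_congr_right fun _ => and_congr Iff.rfl
    ⟨fun h u hu => StrB_ann U' fun l hl => hu l (h l hl), fun h l hl => ?_⟩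
  refine StrB_ann (StrB_L k F (mat x)) fun u hu => ?_
  rw [dotProduct_comm]
  exact hl u (h fun l' hl' => (dotProduct_comm _ _).trans (hu l' hl'))

theorem isCl_cs (M : Matrix σ σ F) (m : ℕ) (U U' : Submodule F (σ → F)) :
    IsCl (CS k M m U U') := by
  have n1 : ∀ u : σ → F, IsNat (fun R _ _ x => mat x *ᵥ rv k R u : PMap k (σ × σ) σ) := by
    intro u R R' _ _ _ _ f y a
    simp [mulVec, dotProduct, mat, rv_map]
  have n2 : ∀ u : σ → F, IsNat (fun R _ _ _ => rv k R u : PMap k (σ × σ) σ) :=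
    fun u _ _ _ _ _ _ f _ a => rv_map k f u a
  have n3 : ∀ l : σ → F, IsNat (fun R _ _ x => rv k R l ᵥ* mat x : PMap k (σ × σ) σ) := by
    intro u R R' _ _ _ _ f y a
    simp [vecMul, dotProduct, mat, rv_map]
  have n4 : IsNat (fun _ _ _ _ _ => 0 : PMap k (σ × σ) σ) :=
    fun _ _ _ _ _ _ f _ _ => map_zero f
  exact (IsCl.and ⟨_, cut_jpt k M m⟩ (IsCl.and
    (IsCl.forall fun u => IsCl.forall fun _ : u ∈ U => isCl_veq (n1 u) (n2 u))
    (IsCl.forall fun l : σ → F => IsCl.forall fun _ : ∀ u ∈ U', l ⬝ᵥ u = 0 =>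
      isCl_veq (n3 l) n4))).congr fun _ _ _ _ => Iff.rfl

theorem cs_mono {M : Matrix σ σ F} {m : ℕ} {U U' V V' : Submodule F (σ → F)} (h : U ≤ V)
    (h' : V' ≤ U') {Ω : Type} [Field Ω] [Algebra k Ω] {x : σ × σ → Ω} (hx : CS k M m V V' Ω x) :
    CS k M m U U' Ω x := by
  exact ⟨hx.1, fun u hu => hx.2.1 u (h hu), fun l hl => hx.2.2 l fun u hu => hl u (h' hu)⟩

theorem cs_bot_top (M : Matrix σ σ F) (m : ℕ) {Ω : Type} [Field Ω] [Algebra k Ω] (x : σ × σ → Ω) :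
    JPt k M m Ω x ↔ CS k M m ⊥ ⊤ Ω x := by
  exact ⟨fun h => (StrB_cs k).2 ⟨h, bot_le, le_top⟩, fun h => h.1⟩

theorem cs_le {M : Matrix σ σ F} {m : ℕ} {U U' : Submodule F (σ → F)} {Ω : Type} [Field Ω]
    [Algebra k Ω] {x : σ × σ → Ω} (hx : CS k M m U U' Ω x) : U ≤ U' := by
  refine fun u hu => StrB_ann U' fun l hl => (cF k Ω).injective ?_
  rw [← rv_dot, ← hx.2.1 u hu, dotProduct_mulVec, hx.2.2 l hl, zero_dotProduct, map_zero]

/-- generic means: in no smaller closed stratum -/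
theorem gen_iff {M : Matrix σ σ F} {m : ℕ} {U U' : Submodule F (σ → F)} {Ω : Type} [Field Ω]
    [Algebra k Ω] {x : σ × σ → Ω} (hx : CS k M m U U' Ω x) :
    Gen k U U' Ω x ↔ ∀ V V' : Submodule F (σ → F), U ≤ V → V' ≤ U' → (V, V') ≠ (U, U') →
      ¬ CS k M m V V' Ω x := by
  have e : Gen k U U' Ω x ↔ StrB_A k F (mat x) ≤ U ∧ U' ≤ StrB_B k F (mat x) :=
    and_congr Iff.rfl ⟨fun h u hu l hl => h l hl u hu, fun h l hl u hu => h hu l hl⟩
  obtain ⟨h0, h1, h2⟩ := (StrB_cs k).1 hx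
  rw [e]
  refine ⟨fun h V V' a b c d => c ?_, fun h => ?_⟩
  · obtain ⟨-, d1, d2⟩ := (StrB_cs k).1 d
    exact Prod.ext (le_antisymm (d1.trans h.1) a) (le_antisymm b (h.2.trans d2))
  · by_contra hc
    refine h _ _ h1 h2 (fun e' => hc ?_) ((StrB_cs k).2 ⟨h0, le_rfl, le_rfl⟩)
    exact ⟨(congrArg Prod.fst e').le, (congrArg Prod.snd e').ge⟩

/-- conjugation of points -/
def StrB_conj (G : Matrix σ τ F) (G' : Matrix τ σ F) : PMap k (τ × τ) (σ × σ) :=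
  fun R _ _ y i => (rm k R G * mat y * rm k R G') i.1 i.2

omit [Fintype F] [Fintype σ] [DecidableEq σ] [DecidableEq τ] in
theorem StrB_nat (G : Matrix σ τ F) (G' : Matrix τ σ F) : IsNat (StrB_conj k G G') := by
  intro R R' _ _ _ _ f y a
  simp [StrB_conj, mul_apply, mat, rm, cF_map]

omit [Fintype F] [DecidableEq σ] in
theorem StrB_inv {G : Matrix σ τ F} {G' : Matrix τ σ F} (h2 : G' * G = 1) {R : Type} [CommRing R]
    [Algebra k R] (y : τ × τ → R) : StrB_conj k G' G R (StrB_conj k G G' R y) = y := by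
  have e : rm k R G' * (rm k R G * mat y * rm k R G') * rm k R G = mat y := by
    rw [← Matrix.mul_assoc, ← Matrix.mul_assoc, ← rm_mul, h2, rm_one, Matrix.one_mul,
      Matrix.mul_assoc, ← rm_mul, h2, rm_one, Matrix.mul_one]
  exact funext fun i => congrFun (congrFun e i.1) i.2

theorem StrB_move {M : Matrix σ σ F} {N : Matrix τ τ F} {m : ℕ} {G : Matrix σ τ F}
    {G' : Matrix τ σ F} (h1 : G * G' = 1) (h2 : G' * G = 1) (hN : Gᵀ * M * G = N)
    {U U' : Submodule F (σ → F)} {V V' : Submodule F (τ → F)}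
    (hU : ∀ u, u ∈ V ↔ G *ᵥ u ∈ U) (hU' : ∀ u, u ∈ V' ↔ G *ᵥ u ∈ U') {Ω : Type} [Field Ω]
    [Algebra k Ω] {y : τ × τ → Ω} (h : CS k N m V V' Ω y) :
    CS k M m U U' Ω (StrB_conj k G G' Ω y) := by
  have e : mat (StrB_conj k G G' Ω y) = rm k Ω G * mat y * rm k Ω G' := rfl
  have p1 : rm k Ω G * rm k Ω G' = 1 := by rw [← rm_mul, h1, rm_one]
  have p2 : rm k Ω G' * rm k Ω G = 1 := by rw [← rm_mul, h2, rm_one]
  have q1 : ∀ v, rm k Ω G *ᵥ rm k Ω G' *ᵥ v = v := fun v => by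
    rw [mulVec_mulVec, p1, one_mulVec]
  have q2 : ∀ v, rm k Ω G' *ᵥ rm k Ω G *ᵥ v = v := fun v => by
    rw [mulVec_mulVec, p2, one_mulVec]
  have fx : ∀ v, mat (StrB_conj k G G' Ω y) *ᵥ v = v ↔
      mat y *ᵥ rm k Ω G' *ᵥ v = rm k Ω G' *ᵥ v := fun v => by
    rw [e, ← mulVec_mulVec, ← mulVec_mulVec]
    exact ⟨fun h => by rw [← q2 (mat y *ᵥ _), h], fun h => by rw [h, q1]⟩
  obtain ⟨h0, ha, hb⟩ := h
  obtain ⟨j1, j2, j3, w, j4⟩ := (jpt_iff k N m y).1 h0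
  refine ⟨(jpt_iff k M m _).2 ⟨?_, ?_, fun v hv => ?_, rm k Ω G *ᵥ w, fun v hv => ?_⟩,
    fun u hu => ?_, fun l hl => ?_⟩
  · rw [e, Matrix.mul_assoc (rm k Ω G * mat y), ← Matrix.mul_assoc (rm k Ω G'),
      ← Matrix.mul_assoc (rm k Ω G'), p2, Matrix.one_mul, ← Matrix.mul_assoc,
      Matrix.mul_assoc (rm k Ω G), j1]
  · rw [← j2]
    refine le_antisymm ((rank_mul_le_left _ _).trans (rank_mul_le_right _ _)) ?_
    conv_lhs => rw [← StrB_inv k h2 y]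
    exact (rank_mul_le_left _ _).trans (rank_mul_le_right _ _)
  · rw [← q1 v, Qf_basis, hN]
    exact j3 _ ((fx v).1 hv)
  · obtain ⟨t, ht⟩ := j4 _ ((fx v).1 hv)
    refine ⟨t, (fx _).2 ?_⟩
    rw [mulVec_sub, mulVec_smul, q2, ← fr_mulVec]
    exact ht
  · rw [fx, ← rv_mulVec]
    refine ha _ ((hU _).2 ?_)
    rwa [mulVec_mulVec, h1, one_mulVec]
  · rw [e, ← vecMul_vecMul, ← vecMul_vecMul, ← rv_vecMul, hb, zero_vecMul]
    intro u hu
    rw [← dotProduct_mulVec]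
    exact hl _ ((hU' u).1 hu)

/-- change of basis -/
theorem cs_basis (M : Matrix σ σ F) (m : ℕ) (G : Matrix σ τ F) (G' : Matrix τ σ F)
    (h1 : G * G' = 1) (h2 : G' * G = 1) {U U' : Submodule F (σ → F)} {V V' : Submodule F (τ → F)}
    (hU : ∀ u, u ∈ V ↔ G *ᵥ u ∈ U) (hU' : ∀ u, u ∈ V' ↔ G *ᵥ u ∈ U')
    (h : VanS (CS k (Gᵀ * M * G) m V V')) : VanS (CS k M m U U') := by
  refine isoS (StrB_nat k G G') (StrB_nat k G' G) (isCl_cs k M m U U') h
    (fun Ω _ _ y hy => ⟨StrB_move k h1 h2 rfl hU hU' hy, StrB_inv k h2 y⟩)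
    fun Ω _ _ x hx => ⟨_, StrB_move k h2 h1 ?_ (fun u => ?_) (fun u => ?_) hx, StrB_inv k h1 x⟩
  · rw [← Matrix.mul_assoc, ← Matrix.mul_assoc, ← transpose_mul, h1, transpose_one,
      Matrix.one_mul, Matrix.mul_assoc, h1, Matrix.mul_one]
  · rw [hU, mulVec_mulVec, h1, one_mulVec]
  · rw [hU', mulVec_mulVec, h1, one_mulVec]

end Pool.Agent.MP_a9d3bd_ag
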