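import Pool.Agent.MP_a9d3bd_ag.Idem

open Function TensorProduct Matrix

namespace Pool.Agent.MP_a9d3bd_ag

variable (k : Type) {F : Type} [Field k] [Field F] [Algebra F k] {a b c : ℕ}

theorem StrW_dot (M : Matrix (Ix a b c) (Ix a b c) F) {R : Type} [CommRing R] [Algebra k R]
    (z z' : Fin b → R) :
    emb a c z ⬝ᵥ rm k R M *ᵥ emb a c z' = z ⬝ᵥ rm k R (mid M) *ᵥ z' := by
  simp [dotProduct, Matrix.mulVec, Fintype.sum_sum_type, emb, rm, mid]

theorem StrW_row {R : Type} [CommRing R] {r : ℕ} (h : Hx a b c r → R) {i : Ix a b c}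
    (hi : ¬ Dp r i = true) (j : Ix a b c) : nrm r h i j = 0 := by
  simp only [nrm, Matrix.of_apply, dif_neg hi]

theorem StrW_col {R : Type} [CommRing R] {r : ℕ} (h : Hx a b c r → R) (i : Ix a b c)
    {j : Ix a b c} (hj : Dp r j = true) : nrm r h i j = if i = j then 1 else 0 := by
  by_cases hi : Dp r i = true
  · simp only [nrm, Matrix.of_apply, dif_pos hi, dif_pos hj]
  · rw [StrW_row h hi, if_neg]
    rintro rfl
    exact hi hj

theorem StrW_card {r : ℕ} (hr : r ≤ b) : Fintype.card {i : Ix a b c // Dp r i = true} = a + r := by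
  rw [Fintype.card_subtype, Finset.card_filter]
  simp only [Fintype.sum_sum_type, Dp, Sum.elim_inl, Sum.elim_inr, decide_eq_true_eq]
  rw [← Finset.card_filter (fun i : Fin b => i.val < r), Fin.card_filter_val_lt, min_eq_right hr]
  simp

theorem Qf_emb (M : Matrix (Ix a b c) (Ix a b c) F) {R : Type} [CommRing R] [Algebra k R]
    (z : Fin b → R) : Qf k M (emb a c z) = Qf k (mid M) z := by
  exact StrW_dot k M z z

theorem Bf_emb (M : Matrix (Ix a b c) (Ix a b c) F) {R : Type} [CommRing R] [Algebra k R]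
    (z z' : Fin b → R) : Bf k M (emb a c z) (emb a c z') = Bf k (mid M) z z' := by
  unfold Bf
  rw [StrW_dot, StrW_dot]

theorem blk_mul {R : Type} [CommRing R] (Y Z : Matrix (Fin b) (Fin b) R) :
    blk a c Y * blk a c Z = blk a c (Y * Z) := by
  simp [blk, Matrix.fromBlocks_multiply]

theorem blk_one {R : Type} [CommRing R] : blk a c (1 : Matrix (Fin b) (Fin b) R) = 1 := by
  simp [blk, Matrix.fromBlocks_one]

theorem blk_map {R R' : Type} [CommRing R] [CommRing R'] (f : R →+* R')
    (Y : Matrix (Fin b) (Fin b) R) : (blk a c Y).map f = blk a c (Y.map f) := by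
  simp [blk, Matrix.fromBlocks_map]

theorem blk_mulVec {R : Type} [CommRing R] (Y : Matrix (Fin b) (Fin b) R) (v : Ix a b c → R) :
    blk a c Y *ᵥ v = Sum.elim (fun i => v (Sum.inl i))
      (Sum.elim (Y *ᵥ fun s => v (Sum.inr (Sum.inl s))) fun i => v (Sum.inr (Sum.inr i))) := by
  simp only [blk, Matrix.fromBlocks_mulVec, Matrix.one_mulVec, Matrix.zero_mulVec, add_zero,
    zero_add]
  rfl

theorem nrm_fix {R : Type} [CommRing R] {r : ℕ} (h : Hx a b c r → R) (v : Ix a b c → R) :
    nrm r h *ᵥ v = v ↔ ∀ i, ¬ Dp r i = true → v i = 0 := by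
  have h0 : ∀ i, ¬ Dp r i = true → (nrm r h *ᵥ v) i = 0 := fun i hi => by
    change ∑ j, nrm r h i j * v j = 0
    exact Finset.sum_eq_zero fun j _ => by rw [StrW_row h hi, zero_mul]
  refine ⟨fun hv i hi => by rw [← hv, h0 i hi], fun hv => funext fun i => ?_⟩
  by_cases hi : Dp r i = true
  · change ∑ j, nrm r h i j * v j = v i
    rw [Finset.sum_eq_single i, StrW_col h i hi, if_pos rfl, one_mul]
    · intro j _ hji
      by_cases hj : Dp r j = true
      · rw [StrW_col h i hj, if_neg hji.symm, zero_mul]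
      · rw [hv j hj, mul_zero]
    · simp
  · rw [h0 i hi, hv i hi]

theorem nrm_mul {R : Type} [CommRing R] {r : ℕ} (h : Hx a b c r → R) :
    nrm r h * nrm r h = nrm r h := by
  ext i j
  exact congrFun ((nrm_fix h fun i => nrm r h i j).2 fun i hi => StrW_row h hi j) i

theorem nrm_rank {Ω : Type} [Field Ω] {r : ℕ} (hr : r ≤ b) (h : Hx a b c r → Ω) :
    (nrm r h).rank = a + r := by
  classical
  let w : Ix a b c → Ω := fun i => if Dp r i = true then 1 else 0
  have h1 : Matrix.diagonal w * nrm r h = nrm r h := by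
    ext i j
    rw [Matrix.diagonal_mul]
    by_cases hi : Dp r i = true
    · simp only [w, if_pos hi, one_mul]
    · rw [StrW_row h hi, mul_zero]
  have h2 : nrm r h * Matrix.diagonal w = Matrix.diagonal w := by
    ext i j
    rw [Matrix.mul_diagonal, Matrix.diagonal_apply]
    by_cases hj : Dp r j = true
    · rw [StrW_col h i hj]
      split_ifs with hij
      · rw [hij, one_mul]
      · rw [zero_mul]
    · have hw : w j = 0 := if_neg hj
      split_ifs with hij
      · rw [hij, hw, mul_zero]
      · rw [hw, mul_zero]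
  have h3 : (Matrix.diagonal w).rank = a + r := by
    rw [Matrix.rank_diagonal, ← StrW_card (c := c) hr]
    exact Fintype.card_congr (Equiv.subtypeEquivRight fun i => by simp [w])
  refine le_antisymm ?_ ?_
  · rw [← h3, ← h1]
    exact Matrix.rank_mul_le_left _ _
  · rw [← h3, ← h2]
    exact Matrix.rank_mul_le_left _ _

/-- recognising the normal form -/
theorem eq_nrm {R : Type} [CommRing R] {r : ℕ} (N : Matrix (Ix a b c) (Ix a b c) R)
    (hN : N * N = N) (h : ∀ v, N *ᵥ v = v ↔ ∀ i, ¬ Dp r i = true → v i = 0) :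
    N = nrm r fun s => N s.1.1 s.2.1 := by
  ext i j
  by_cases hi : Dp r i = true
  · by_cases hj : Dp r j = true
    · have h1 := congrFun ((h (Pi.single j 1)).2 fun i' hi' =>
        Pi.single_eq_of_ne (fun e : i' = j => hi' (e ▸ hj)) 1) i
      rw [Matrix.mulVec_single_one] at h1
      rw [StrW_col _ i hj, ← Pi.single_apply, ← h1]
      rfl
    · simp only [nrm, Matrix.of_apply, dif_pos hi, dif_neg hj]
  · rw [StrW_row _ hi]
    exact (h fun i => N i j).1 (funext fun i => congrFun (congrFun hN i) j) i hi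

variable [Fintype F]

theorem isNat_par (r : ℕ) : IsNat (Par k F a b c r) := by
  intro R R' _ _ _ _ f y i
  have h1 : (moore F (xv y)).map (f : R →+* R') = moore F (xv fun t => f (y t)) := by
    ext s j
    simp [moore, fr, xv]
  have h2 : (nrm r (hv y)).map (f : R →+* R') = nrm r (hv fun t => f (y t)) := by
    ext s j
    simp only [nrm, Matrix.map_apply, Matrix.of_apply, hv]
    split_ifs <;> simp
  have h3 : (y none • (moore F (xv y)).adjugate).map (f : R →+* R') =
      f (y none) • (moore F (xv fun t => f (y t))).adjugate := by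
    have h4 := RingHom.map_adjugate (f : R →+* R') (moore F (xv y))
    rw [RingHom.mapMatrix_apply, RingHom.mapMatrix_apply, h1] at h4
    rw [← h4]
    ext s j
    simp
  have h5 : (emat F y).map (f : R →+* R') = emat F fun t => f (y t) := by
    unfold emat
    rw [Matrix.map_mul, Matrix.map_mul, blk_map, blk_map, h1, h2, h3]
  exact congrFun (congrFun h5 i.1) i.2

end Pool.Agent.MP_a9d3bd_ag
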