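import Pool.Agent.MP_a9d3bd_ag.StrW

open Function TensorProduct Matrix

namespace Pool.Agent.MP_a9d3bd_ag

variable (k : Type) {F : Type} [Field k] [Field F] [Algebra F k] {a b c : ℕ} [Fintype F]

omit [Fintype F] in
theorem StrX_rv_single {σ Ω : Type} [DecidableEq σ] [Field Ω] [Algebra k Ω] (j : σ) :
    rv k Ω (Pi.single j (1 : F)) = Pi.single j 1 := by
  funext i
  by_cases h : i = j
  · subst h; simp [rv]
  · simp [rv, Pi.single_eq_of_ne h]

omit [Fintype F] in
theorem StrX_rv_emb {Ω : Type} [Field Ω] [Algebra k Ω] (u : Fin b → F) :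
    rv k Ω (emb a c u) = emb a c (rv k Ω u) := by
  funext i
  rcases i with i | s | i <;> simp [rv, emb]

theorem StrX_emb_dot {R : Type} [CommRing R] (z : Fin b → R) (v : Ix a b c → R) :
    emb a c z ⬝ᵥ v = z ⬝ᵥ fun s => v (Sum.inr (Sum.inl s)) := by
  simp [dotProduct, Fintype.sum_sum_type, emb]

theorem StrX_rank {Ω : Type} [Field Ω] {e : Matrix (Ix a b c) (Ix a b c) Ω} (he : e * e = e)
    (W : Submodule Ω (Fin b → Ω)) (hfix : ∀ v, e *ᵥ v = v ↔
      (∀ i, v (Sum.inr (Sum.inr i)) = 0) ∧ (fun s => v (Sum.inr (Sum.inl s))) ∈ W) :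
    e.rank = a + Module.finrank Ω W := by
  let Φ : ((Fin a → Ω) × W) →ₗ[Ω] (Ix a b c → Ω) :=
    { toFun := fun q => Sum.elim q.1 (Sum.elim q.2.1 fun _ => 0)
      map_add' := fun q q' => by
        funext i
        rcases i with i | s | i <;> simp
      map_smul' := fun t q => by
        funext i
        rcases i with i | s | i <;> simp }
  have hΦ : ∀ q, Φ q = Sum.elim q.1 (Sum.elim q.2.1 fun _ => 0) := fun _ => rfl
  have hinj : Injective Φ := by
    intro q q' h
    rw [hΦ, hΦ] at h
    refine Prod.ext (funext fun i => congrFun h (Sum.inl i))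
      (Subtype.ext (funext fun s => congrFun h (Sum.inr (Sum.inl s))))
  have hr : LinearMap.range e.mulVecLin = LinearMap.range Φ := by
    ext v
    constructor
    · rintro ⟨u, rfl⟩
      have h1 : e *ᵥ (e *ᵥ u) = e *ᵥ u := by rw [Matrix.mulVec_mulVec, he]
      obtain ⟨h2, h3⟩ := (hfix _).1 h1
      refine ⟨(fun i => (e *ᵥ u) (Sum.inl i), ⟨_, h3⟩), ?_⟩
      rw [hΦ]
      funext i
      rcases i with i | s | i
      · rfl
      · rfl
      · exact (h2 i).symm
    · rintro ⟨q, rfl⟩
      exact ⟨Φ q, (hfix _).2 ⟨fun _ => rfl, q.2.2⟩⟩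
  rw [Matrix.rank, hr, LinearMap.finrank_range_of_inj hinj, Module.finrank_prod,
    Module.finrank_fin_fun]

theorem exists_wok {M : Matrix (Ix a b c) (Ix a b c) F} {m : ℕ} {Ω : Type} [Field Ω] [Algebra k Ω]
    {x : Ix a b c × Ix a b c → Ω} (hx : CS k M m (UA F a b c) (UB F a b c) Ω x)
    (hg : Gen k (UA F a b c) (UB F a b c) Ω x) : ∃ W, WOk k m F (mat x) W := by
  obtain ⟨hJ, hU, hU'⟩ := hx
  obtain ⟨he, hrk, -, w, hw⟩ := (jpt_iff k M m x).1 hJ
  set e := mat x with hedef
  have h1 : ∀ i : Fin a, e *ᵥ Pi.single (Sum.inl i) 1 = Pi.single (Sum.inl i) 1 := by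
    intro i
    have := hU (Pi.single (Sum.inl i) 1) (fun j => by simp)
    rwa [StrX_rv_single] at this
  have h2 : ∀ (i : Fin c) (v : Ix a b c → Ω), (e *ᵥ v) (Sum.inr (Sum.inr i)) = 0 := by
    intro i v
    have := hU' (Pi.single (Sum.inr (Sum.inr i)) 1) (fun u hu => by
      rw [single_dotProduct, one_mul]; exact hu i)
    rw [StrX_rv_single, Matrix.single_one_vecMul] at this
    change e.row (Sum.inr (Sum.inr i)) ⬝ᵥ v = 0
    rw [this, zero_dotProduct]
  have h3 : ∀ p : Fin a → Ω, e *ᵥ (∑ i, p i • Pi.single (Sum.inl i) 1) =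
      ∑ i, p i • Pi.single (Sum.inl i) 1 := by
    intro p
    rw [Matrix.mulVec_sum]
    exact Finset.sum_congr rfl fun i _ => by rw [Matrix.mulVec_smul, h1]
  have h4 : ∀ v : Ix a b c → Ω, (∀ i, v (Sum.inr (Sum.inr i)) = 0) →
      v = (∑ i, v (Sum.inl i) • Pi.single (Sum.inl i) 1) +
        emb a c fun s => v (Sum.inr (Sum.inl s)) := by
    intro v hv
    funext j
    rcases j with j | s | j
    · simp [emb, Finset.sum_apply, Pi.single_apply]
    · simp [emb, Finset.sum_apply]
    · simp [emb, Finset.sum_apply, hv j]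
  let W : Submodule Ω (Fin b → Ω) :=
    { carrier := {z | e *ᵥ emb a c z = emb a c z}
      add_mem' := fun {z z'} hz hz' => by
        have h : emb a c (z + z') = emb a c z + emb a c z' := by
          funext j
          rcases j with j | s | j <;> simp [emb]
        change e *ᵥ emb a c (z + z') = emb a c (z + z')
        rw [h, Matrix.mulVec_add, hz, hz']
      zero_mem' := by
        have h : emb a c (0 : Fin b → Ω) = 0 := by
          funext j
          rcases j with j | s | j <;> simp [emb]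
        change e *ᵥ emb a c 0 = emb a c 0
        rw [h, Matrix.mulVec_zero]
      smul_mem' := fun t z hz => by
        have h : emb a c (t • z) = t • emb a c z := by
          funext j
          rcases j with j | s | j <;> simp [emb]
        change e *ᵥ emb a c (t • z) = emb a c (t • z)
        rw [h, Matrix.mulVec_smul, hz] }
  have hW : ∀ z, z ∈ W ↔ e *ᵥ emb a c z = emb a c z := fun _ => Iff.rfl
  have hfix : ∀ v, e *ᵥ v = v ↔
      (∀ i, v (Sum.inr (Sum.inr i)) = 0) ∧ (fun s => v (Sum.inr (Sum.inl s))) ∈ W := by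
    intro v
    constructor
    · intro hv
      have h5 : ∀ i, v (Sum.inr (Sum.inr i)) = 0 := fun i => by rw [← hv]; exact h2 i v
      refine ⟨h5, (hW _).2 ?_⟩
      have h6 := h4 v h5
      rw [h6, Matrix.mulVec_add, h3] at hv
      exact add_left_cancel hv
    · rintro ⟨h5, h6⟩
      rw [h4 v h5, Matrix.mulVec_add, h3, (hW _).1 h6]
  refine ⟨W, hfix, by rw [← StrX_rank he W hfix, hrk], ?_, ?_, ?_⟩
  · refine ⟨fun s => w (Sum.inr (Sum.inl s)), fun z hz => ?_⟩
    obtain ⟨t, ht⟩ := hw _ ((hW z).1 hz)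
    exact ⟨t, ((hfix _).1 ht).2⟩
  · intro u hu
    have h5 := hg.1 (emb a c u) (by rw [StrX_rv_emb]; exact (hW _).1 hu)
    funext s
    exact h5 (Sum.inl s)
  · intro l hl
    have h5 := hg.2 (emb a c l) (by
      funext j
      have h6 : e *ᵥ (e *ᵥ Pi.single j 1) = e *ᵥ Pi.single j 1 := by
        rw [Matrix.mulVec_mulVec, he]
      have h7 := hl _ ((hfix _).1 h6).2
      rw [← StrX_emb_dot, ← StrX_rv_emb, Matrix.dotProduct_mulVec, dotProduct_single,
        mul_one] at h7
      exact h7)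
    funext s
    have h8 := h5 (Pi.single (Sum.inr (Sum.inl s)) 1) (fun j => by simp)
    rw [dotProduct_single, mul_one] at h8
    exact h8

omit [Fintype F] in
theorem StrX_Bf_single {σ Ω : Type} [Fintype σ] [DecidableEq σ] [Field Ω] [Algebra k Ω]
    (M : Matrix σ σ F) (j : σ) (v : σ → Ω) :
    Bf k M (Pi.single j 1) v = rv k Ω (fun s => M j s + M s j) ⬝ᵥ v := by
  unfold Bf
  rw [single_dotProduct, one_mul, Matrix.mulVec_single_one]
  simp only [Matrix.mulVec, dotProduct, rm, rv, Matrix.map_apply, Matrix.col_apply, map_add,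
    ← Finset.sum_add_distrib]
  exact Finset.sum_congr rfl fun s _ => by ring

theorem strHyp_of {M : Matrix (Ix a b c) (Ix a b c) F} {m : ℕ} {Ω : Type} [Field Ω] [Algebra k Ω]
    {x : Ix a b c × Ix a b c → Ω} (hx : JPt k M m Ω x) {W : Submodule Ω (Fin b → Ω)}
    (hW : WOk k m F (mat x) W) : StrHyp M m (m - a) := by
  obtain ⟨-, -, hQ, -⟩ := (jpt_iff k M m x).1 hx
  have hr : m - a = Module.finrank Ω W := by have := hW.rank; omega
  have hle : Module.finrank Ω W ≤ b := by
    have := Submodule.finrank_le W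
    rwa [Module.finrank_fin_fun] at this
  have hinj : Injective (cF k Ω : F →+* Ω) := (cF k Ω : F →+* Ω).injective
  have hB : ∀ v v', mat x *ᵥ v = v → mat x *ᵥ v' = v' → Bf k M v v' = 0 := by
    intro v v' hv hv'
    have h1 := hQ (v + v') (by rw [Matrix.mulVec_add, hv, hv'])
    rw [Qf_add, hQ v hv, hQ v' hv'] at h1
    simpa using h1
  have h1 : ∀ i : Fin a, mat x *ᵥ Pi.single (Sum.inl i) 1 = Pi.single (Sum.inl i) 1 := by
    intro i
    refine (hW.fix _).2 ⟨fun j => by simp, ?_⟩
    have : (fun s : Fin b => (Pi.single (Sum.inl i) 1 : Ix a b c → Ω) (Sum.inr (Sum.inl s))) =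
        0 := by
      funext s
      simp
    rw [this]
    exact W.zero_mem
  refine ⟨by have := hW.rank; omega, fun hb => ?_, fun hb => by omega, fun i => ?_,
    fun i i' => ?_, fun i s => ?_⟩
  · have s : Fin b := ⟨0, Nat.pos_of_ne_zero hb⟩
    have hs : (Pi.single s 1 : Fin b → F) ≠ 0 := by simp
    rw [hr]
    constructor
    · by_contra h
      have h2 : W = ⊥ := Submodule.finrank_eq_zero.1 (by omega)
      refine hs (hW.nohyp _ fun z hz => ?_)
      rw [h2, Submodule.mem_bot] at hz
      rw [hz, dotProduct_zero]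
    · by_contra h
      have h2 : W = ⊤ := Submodule.eq_top_of_finrank_eq (by rw [Module.finrank_fin_fun]; omega)
      exact hs (hW.norat _ (by rw [h2]; trivial))
  · have h2 := hQ _ (h1 i)
    unfold Qf at h2
    rw [single_dotProduct, one_mul, Matrix.mulVec_single_one] at h2
    exact hinj (by rw [map_zero]; exact h2)
  · have h2 := hB _ _ (h1 i) (h1 i')
    rw [StrX_Bf_single, dotProduct_single, mul_one] at h2
    exact hinj (by rw [map_zero]; exact h2)
  · have h2 := hW.nohyp (fun s => M (Sum.inl i) (Sum.inr (Sum.inl s)) +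
        M (Sum.inr (Sum.inl s)) (Sum.inl i)) (fun z hz => by
      have h3 := hB _ (emb a c z) (h1 i) ((hW.fix _).2 ⟨fun _ => rfl, hz⟩)
      rw [StrX_Bf_single, dotProduct_comm, StrX_emb_dot, dotProduct_comm] at h3
      exact h3)
    exact congrFun h2 s

end Pool.Agent.MP_a9d3bd_ag
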